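import Mathlib

/-!
Multiplicities and differential operators that are diagonal on monomials.
-/

open MvPolynomial Finset

namespace Pool.Agent.Y910.N

/-- translation by `v` -/
noncomputable def tr (v : Fin 3 → ℂ) : MvPolynomial (Fin 3) ℂ →ₐ[ℂ] MvPolynomial (Fin 3) ℂ :=
  aeval (fun j : Fin 3 => (X j + C (v j) : MvPolynomial (Fin 3) ℂ))

/-- order at least `m` at the origin -/
def Od (G : MvPolynomial (Fin 3) ℂ) (m : ℕ) : Prop :=
  ∀ s : Fin 3 →₀ ℕ, (∑ j, s j) < m → coeff s G = 0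

/-- multiplicity at least `m` at `v` -/
def MG (v : Fin 3 → ℂ) (F : MvPolynomial (Fin 3) ℂ) (m : ℕ) : Prop := Od (tr v F) m

lemma Od.mono {G : MvPolynomial (Fin 3) ℂ} {m m' : ℕ} (h : Od G m) (hm : m' ≤ m) : Od G m' :=
  fun s hs => h s (by omega)

lemma Od.add {G H : MvPolynomial (Fin 3) ℂ} {m : ℕ} (h : Od G m) (h' : Od H m) : Od (G + H) m := by
  intro s hs
  rw [coeff_add, h s hs, h' s hs, add_zero]

lemma Od.sub {G H : MvPolynomial (Fin 3) ℂ} {m : ℕ} (h : Od G m) (h' : Od H m) : Od (G - H) m := by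
  intro s hs
  rw [coeff_sub, h s hs, h' s hs, sub_zero]

lemma Od.mul {G : MvPolynomial (Fin 3) ℂ} (H : MvPolynomial (Fin 3) ℂ) {m : ℕ} (h : Od G m) :
    Od (H * G) m := by
  intro s hs
  rw [coeff_mul]
  apply Finset.sum_eq_zero
  rintro ⟨a, b⟩ hab
  rw [HasAntidiagonal.mem_antidiagonal] at hab
  have hb : (∑ j, b j) ≤ ∑ j, s j := by
    apply Finset.sum_le_sum
    intro j _
    rw [← hab]
    simp
  simp only
  rw [h b (by omega), mul_zero]

lemma Od.pderiv {G : MvPolynomial (Fin 3) ℂ} {m : ℕ} (h : Od G (m + 1)) (j : Fin 3) :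
    Od (MvPolynomial.pderiv j G) m := by
  intro s hs
  rw [coeff_pderiv, h, zero_mul]
  have h1 : ∑ i, (s + Finsupp.single j 1 : Fin 3 →₀ ℕ) i = (∑ i, s i) + 1 := by
    rw [Fin.sum_univ_three, Fin.sum_univ_three]
    fin_cases j <;> simp <;> ring
  omega

lemma tr_pderiv (v : Fin 3 → ℂ) (j : Fin 3) (F : MvPolynomial (Fin 3) ℂ) :
    tr v (pderiv j F) = pderiv j (tr v F) := by
  induction F using MvPolynomial.induction_on with
  | C a => simp [tr]
  | add p q hp hq => rw [map_add, map_add, map_add, map_add, hp, hq]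
  | mul_X p i hp =>
    rw [pderiv_mul, map_add, map_mul, map_mul, hp, map_mul, pderiv_mul]
    congr 2
    by_cases hij : i = j
    · subst hij
      simp [tr]
    · simp [tr, pderiv_X_of_ne hij]

/-- the operator `X_j ∂_j - c` -/
noncomputable def op (j : Fin 3) (c : ℕ) (F : MvPolynomial (Fin 3) ℂ) : MvPolynomial (Fin 3) ℂ :=
  X j * pderiv j F - C (c : ℂ) * F

lemma coeff_op (j : Fin 3) (c : ℕ) (F : MvPolynomial (Fin 3) ℂ) (b : Fin 3 →₀ ℕ) :
    coeff b (op j c F) = ((b j : ℂ) - c) * coeff b F := by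
  rw [op, coeff_sub, coeff_C_mul, sub_mul]
  congr 1
  rw [mul_comm, coeff_mul_X']
  split_ifs with h
  · rw [coeff_pderiv]
    have h1 : b - Finsupp.single j 1 + Finsupp.single j 1 = b := by
      apply tsub_add_cancel_of_le
      rw [Finsupp.single_le_iff]
      exact Nat.one_le_iff_ne_zero.2 (Finsupp.mem_support_iff.1 h)
    rw [h1, mul_comm]
    congr 1
    have h2 : 1 ≤ b j := Nat.one_le_iff_ne_zero.2 (Finsupp.mem_support_iff.1 h)
    have h3 : (b - Finsupp.single j 1 : Fin 3 →₀ ℕ) j = b j - 1 := by simp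
    rw [h3]
    push_cast [Nat.cast_sub h2]
    ring
  · rw [Finsupp.notMem_support_iff.1 h]
    simp

lemma MG.op {v : Fin 3 → ℂ} {F : MvPolynomial (Fin 3) ℂ} {m : ℕ} (h : MG v F (m + 1)) (j : Fin 3)
    (c : ℕ) : MG v (op j c F) m := by
  rw [MG, N.op, map_sub, map_mul, map_mul, tr_pderiv]
  exact ((Od.pderiv h j).mul _).sub ((Od.mono h (by omega)).mul _)

/-- iterated operators -/
noncomputable def ops (L : List (Fin 3 × ℕ)) (F : MvPolynomial (Fin 3) ℂ) : MvPolynomial (Fin 3) ℂ :=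
  L.foldr (fun t G => op t.1 t.2 G) F

/-- the factor by which `ops` multiplies the coefficient of `b` -/
def fac (L : List (Fin 3 × ℕ)) (b : Fin 3 →₀ ℕ) : ℤ :=
  (L.map (fun t => (b t.1 : ℤ) - t.2)).prod

lemma coeff_ops (L : List (Fin 3 × ℕ)) (F : MvPolynomial (Fin 3) ℂ) (b : Fin 3 →₀ ℕ) :
    coeff b (ops L F) = (fac L b : ℂ) * coeff b F := by
  induction L with
  | nil => simp [ops, fac]
  | cons t L ih =>
    have h1 : ops (t :: L) F = op t.1 t.2 (ops L F) := rfl
    have h2 : fac (t :: L) b = ((b t.1 : ℤ) - t.2) * fac L b := rfl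
    rw [h1, coeff_op, ih, h2]
    push_cast
    ring

lemma MG.ops {v : Fin 3 → ℂ} {F : MvPolynomial (Fin 3) ℂ} (L : List (Fin 3 × ℕ)) {m : ℕ}
    (h : MG v F (m + L.length)) : MG v (ops L F) m := by
  induction L generalizing m with
  | nil => exact h
  | cons t L ih =>
    have h1 : N.ops (t :: L) F = N.op t.1 t.2 (N.ops L F) := rfl
    rw [h1]
    apply MG.op
    apply ih
    rw [List.length_cons] at h
    have e : m + 1 + L.length = m + (L.length + 1) := by ring
    rw [e]
    exact h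

lemma MG.eval {v : Fin 3 → ℂ} {F : MvPolynomial (Fin 3) ℂ} (h : MG v F 1) :
    MvPolynomial.eval v F = 0 := by
  have h1 := h 0 (by simp)
  rw [← constantCoeff_eq] at h1
  have h2 : constantCoeff (tr v F) = MvPolynomial.eval v F := by
    have h3 : (constantCoeff (R := ℂ) (σ := Fin 3)).comp (tr v : MvPolynomial (Fin 3) ℂ →+*
        MvPolynomial (Fin 3) ℂ) = MvPolynomial.eval v := by
      apply MvPolynomial.ringHom_ext
      · intro r
        simp [tr]
      · intro i
        simp [tr]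
    exact congrArg (fun g : MvPolynomial (Fin 3) ℂ →+* ℂ => g F) h3
  rw [← h2, h1]

/-- the linear relation between the coefficients given by a list of factors -/
lemma MG.rel {v : Fin 3 → ℂ} {F : MvPolynomial (Fin 3) ℂ} (L : List (Fin 3 × ℕ)) {m : ℕ}
    (h : MG v F m) (hL : L.length < m) {A : Finset (Fin 3 →₀ ℕ)} (hA : F.support ⊆ A) :
    ∑ b ∈ A, (fac L b : ℂ) * coeff b F * ∏ k, v k ^ b k = 0 := by
  have h1 : MG v (N.ops L F) 1 := by
    apply MG.ops
    exact Od.mono h (by omega)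
  have h2 := h1.eval
  rw [eval_eq'] at h2
  have hsub : (N.ops L F).support ⊆ A := by
    intro b hb
    apply hA
    rw [mem_support_iff] at hb ⊢
    rw [coeff_ops] at hb
    exact right_ne_zero_of_mul hb
  rw [← h2, Finset.sum_subset hsub]
  · apply Finset.sum_congr rfl
    intro b _
    rw [coeff_ops]
  · intro b _ hb
    rw [notMem_support_iff.1 hb, zero_mul]

end Pool.Agent.Y910.N
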