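import Pool.Agent.Y910.N.N6

/-!
Independence of finite sets of exponents for points with different multiplicities.
-/

open MvPolynomial Finset

namespace Pool.Agent.Y910.N

/-- `A` is independent for general points of multiplicities `m i`, `i ∈ T` -/
def IndT {n : ℕ} (A : Finset (Fin 3 →₀ ℕ)) (T : Finset (Fin n)) (m : Fin n → ℕ) : Prop :=
  ∃ v : Fin n → Fin 3 → ℂ, ∀ F : MvPolynomial (Fin 3) ℂ, F.support ⊆ A →
    (∀ i ∈ T, MG (v i) F (m i)) → F = 0

section

variable {n : ℕ} {A B : Finset (Fin 3 →₀ ℕ)} {S T : Finset (Fin n)} {m m' : Fin n → ℕ}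

lemma IndT.mono (h : IndT A T m) (hA : B ⊆ A) (hT : T ⊆ S) (hm : ∀ i ∈ T, m i ≤ m' i) :
    IndT B S m' := by
  obtain ⟨v, hv⟩ := h
  exact ⟨v, fun F hF hF' => hv F (hF.trans hA) (fun i hi => (hF' i (hT hi)).mono (hm i hi))⟩

lemma IndT.empty (T : Finset (Fin n)) (m : Fin n → ℕ) : IndT ∅ T m :=
  ⟨fun _ => 0, fun F hF _ => by
    rw [← MvPolynomial.support_eq_empty]
    exact Finset.subset_empty.1 hF⟩

lemma Ind1.indT {i : Fin n} (h : Ind1 A (m i)) (hi : i ∈ T) : IndT A T m :=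
  ⟨fun _ => 1, fun F hF hm => h F hF (hm i hi)⟩

/-- elimination of the coefficients in `A` -/
lemma elimT (B : Finset (Fin 3 →₀ ℕ)) (hAB : Disjoint A B)
    {v : Fin n → Fin 3 → ℂ}
    (h : ∀ F : MvPolynomial (Fin 3) ℂ, F.support ⊆ A → (∀ i ∈ T, MG (v i) F (m i)) → F = 0) :
    ∃ c : (Fin 3 →₀ ℕ) → (Fin 3 →₀ ℕ) → ℂ, ∀ F : MvPolynomial (Fin 3) ℂ, F.support ⊆ A ∪ B →
      (∀ i ∈ T, MG (v i) F (m i)) → ∀ a ∈ A, coeff a F = ∑ b ∈ B, c a b * coeff b F := by
  classical
  obtain ⟨R, hR⟩ : ∃ R : Finset (Fin n × (Fin 3 →₀ ℕ)), ∀ i s,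
      (i, s) ∈ R ↔ i ∈ T ∧ (∑ j, s j) < m i :=
    ⟨T.biUnion (fun i => (rows (m i)).image (fun s => (i, s))), by
      intro i s
      simp [mem_rows]⟩
  obtain ⟨q, hq⟩ : ∃ q : (Fin 3 →₀ ℕ) → R → ℂ, ∀ b r, q b r = coeff r.1.2 (tr (v r.1.1)
    (monomial b 1)) := ⟨fun b r => coeff r.1.2 (tr (v r.1.1) (monomial b 1)), fun _ _ => rfl⟩
  obtain ⟨Φ, hΦ⟩ : ∃ Φ : (A → ℂ) →ₗ[ℂ] (R → ℂ), ∀ c, Φ c = ∑ a : A, c a • q a := by
    refine ⟨∑ a : A, (LinearMap.proj a : (A → ℂ) →ₗ[ℂ] ℂ).smulRight (q a), ?_⟩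
    intro c
    rw [LinearMap.sum_apply]
    rfl
  have hcond : ∀ F : MvPolynomial (Fin 3) ℂ, F.support ⊆ A → ∀ r : R,
      Φ (fun a => coeff (a : Fin 3 →₀ ℕ) F) r = coeff r.1.2 (tr (v r.1.1) F) := by
    intro F hF r
    rw [coeff_tr_eq hF, hΦ, Finset.sum_apply, ← Finset.sum_coe_sort A]
    apply Finset.sum_congr rfl
    intro a _
    rw [Pi.smul_apply, hq, smul_eq_mul, mul_comm]
  have hinj : LinearMap.ker Φ = ⊥ := by
    rw [LinearMap.ker_eq_bot']
    intro c hc
    have e1 : (fun a : A => coeff (a : Fin 3 →₀ ℕ) (ofFun c)) = c := by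
      funext a
      exact coeff_ofFun c a
    have h1 := h (ofFun c) (support_ofFun c) (by
      intro i hi s hs
      have h2 := hcond (ofFun c) (support_ofFun c) ⟨(i, s), (hR i s).2 ⟨hi, hs⟩⟩
      rw [e1, hc, Pi.zero_apply] at h2
      exact h2.symm)
    funext a
    rw [← coeff_ofFun c a, h1, coeff_zero, Pi.zero_apply]
  obtain ⟨g, hg⟩ := LinearMap.exists_leftInverse_of_injective Φ hinj
  refine ⟨fun a b => if ha : a ∈ A then - g (q b) ⟨a, ha⟩ else 0, ?_⟩
  intro F hF hF' a ha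
  have h1 : Φ (fun a : A => coeff (a : Fin 3 →₀ ℕ) F) = - ∑ b ∈ B, coeff b F • q b := by
    rw [eq_neg_iff_add_eq_zero]
    funext r
    have h2 := hF' r.1.1 ((hR _ _).1 r.2).1 r.1.2 ((hR _ _).1 r.2).2
    rw [coeff_tr_eq hF, Finset.sum_union hAB] at h2
    rw [Pi.add_apply, Pi.zero_apply, ← h2, hΦ, Finset.sum_apply, Finset.sum_apply,
      ← Finset.sum_coe_sort A]
    congr 1
    · apply Finset.sum_congr rfl
      intro a _
      rw [Pi.smul_apply, hq, smul_eq_mul, mul_comm]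
    · apply Finset.sum_congr rfl
      intro a _
      rw [Pi.smul_apply, hq, smul_eq_mul, mul_comm]
  have h3 : coeff a F = g (Φ (fun a : A => coeff (a : Fin 3 →₀ ℕ) F)) ⟨a, ha⟩ := by
    have h4 := congrArg (fun f => f (fun a : A => coeff (a : Fin 3 →₀ ℕ) F) ⟨a, ha⟩) hg
    simp only [LinearMap.comp_apply, LinearMap.id_apply] at h4
    exact h4.symm
  rw [h3, h1, map_neg, map_sum, Pi.neg_apply, Finset.sum_apply, ← Finset.sum_neg_distrib]
  apply Finset.sum_congr rfl
  intro b _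
  simp only [dif_pos ha]
  rw [map_smul, Pi.smul_apply, smul_eq_mul]
  ring

/-- the weight of an exponent -/
def om (w : Fin 3 → ℕ) (b : Fin 3 →₀ ℕ) : ℕ := ∑ k, w k * b k

/-- weighted scaling -/
noncomputable def scw (w : Fin 3 → ℕ) (t : ℂ) :
    MvPolynomial (Fin 3) ℂ →ₐ[ℂ] MvPolynomial (Fin 3) ℂ :=
  aeval (fun k : Fin 3 => C (t ^ w k) * X k)

lemma coeff_scw (w : Fin 3 → ℕ) (t : ℂ) (F : MvPolynomial (Fin 3) ℂ) (b : Fin 3 →₀ ℕ) :
    coeff b (scw w t F) = t ^ om w b * coeff b F := by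
  classical
  induction F using MvPolynomial.induction_on' with
  | monomial u a =>
    have h1 : scw w t (monomial u a) = C (t ^ om w u) * monomial u a := by
      rw [scw, aeval_monomial]
      have h2 : (u.prod fun i k => (C (t ^ w i) * X i : MvPolynomial (Fin 3) ℂ) ^ k)
          = C (t ^ om w u) * u.prod fun i k => (X i : MvPolynomial (Fin 3) ℂ) ^ k := by
        rw [Finsupp.prod_fintype _ _ (by simp), Finsupp.prod_fintype _ _ (by simp)]
        simp only [mul_pow]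
        rw [Finset.prod_mul_distrib]
        congr 1
        rw [om, ← Finset.prod_pow_eq_pow_sum, map_prod]
        apply Finset.prod_congr rfl
        intro k _
        rw [← map_pow, pow_mul]
      rw [h2, algebraMap_eq]
      conv_rhs => rw [monomial_eq]
      ring
    rw [h1, coeff_C_mul, coeff_monomial]
    split_ifs with h
    · rw [h]
    · simp
  | add p q hp hq => rw [map_add, coeff_add, coeff_add, hp, hq, mul_add]

lemma support_scw (w : Fin 3 → ℕ) (t : ℂ) {F : MvPolynomial (Fin 3) ℂ}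
    (hF : F.support ⊆ A) : (scw w t F).support ⊆ A := by
  intro b hb
  apply hF
  rw [mem_support_iff] at hb ⊢
  rw [coeff_scw] at hb
  exact right_ne_zero_of_mul hb

lemma MG.scw {w : Fin 3 → ℕ} {t : ℂ} {v : Fin 3 → ℂ} {F : MvPolynomial (Fin 3) ℂ} {m : ℕ}
    (h : MG (fun k => t ^ w k * v k) F m) : MG v (N.scw w t F) m := by
  have h1 : tr v (N.scw w t F) = N.scw w t (tr (fun k => t ^ w k * v k) F) := by
    have h2 : (tr v).comp (N.scw w t) = (N.scw w t).comp (tr (fun k => t ^ w k * v k)) := by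
      apply MvPolynomial.algHom_ext
      intro k
      simp [tr, N.scw, mul_add]
    exact congrArg (fun g : MvPolynomial (Fin 3) ℂ →ₐ[ℂ] MvPolynomial (Fin 3) ℂ => g F) h2
  intro s hs
  rw [h1, coeff_scw, h s hs, mul_zero]

/-- **Gluing.** -/
theorem IndT.glue (w : Fin 3 → ℕ) (hA : IndT A S m)
    (hB : IndT B T m) (hST : Disjoint S T) (hw : ∀ a ∈ A, ∀ b ∈ B, om w a < om w b) :
    IndT (A ∪ B) (S ∪ T) m := by
  classical
  obtain ⟨v, hv⟩ := hA
  obtain ⟨v', hv'⟩ := hB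
  have hAB : Disjoint A B := by
    rw [Finset.disjoint_left]
    intro a ha hb
    exact lt_irrefl _ (hw a ha a hb)
  obtain ⟨p, hp⟩ := elimT B hAB hv
  obtain ⟨q, hq⟩ := elimT A hAB.symm hv'
  obtain ⟨P, hP⟩ : ∃ P : ℝ, P = ∑ a ∈ A, ∑ b ∈ B, ‖p a b‖ := ⟨_, rfl⟩
  obtain ⟨Q, hQ⟩ : ∃ Q : ℝ, Q = ∑ b ∈ B, ∑ a ∈ A, ‖q b a‖ := ⟨_, rfl⟩
  have hP0 : 0 ≤ P := by
    rw [hP]
    exact Finset.sum_nonneg (fun _ _ => Finset.sum_nonneg (fun _ _ => norm_nonneg _))
  have hQ0 : 0 ≤ Q := by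
    rw [hQ]
    exact Finset.sum_nonneg (fun _ _ => Finset.sum_nonneg (fun _ _ => norm_nonneg _))
  obtain ⟨t, ht⟩ : ∃ t : ℝ, t = Q * P + 1 := ⟨_, rfl⟩
  have ht1 : 1 ≤ t := by
    rw [ht]
    nlinarith [mul_nonneg hQ0 hP0]
  have ht0 : 0 < t := by linarith
  refine ⟨fun i => if i ∈ S then v i else fun k => (t : ℂ) ^ w k * v' i k, ?_⟩
  intro F hF hF'
  have h1 := hp F hF (by
    intro i hi
    have := hF' i (Finset.mem_union_left _ hi)
    simp only [if_pos hi] at this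
    exact this)
  have h2 := hq (scw w t F) (support_scw w t (by rw [Finset.union_comm]; exact hF)) (by
    intro i hi
    apply MG.scw
    have := hF' i (Finset.mem_union_right _ hi)
    simp only [if_neg (Finset.disjoint_right.1 hST hi)] at this
    exact this)
  simp only [coeff_scw] at h2
  obtain ⟨U, hU⟩ : ∃ U : ℝ, U = ∑ b ∈ B, ‖coeff b F‖ := ⟨_, rfl⟩
  obtain ⟨U', hU'⟩ : ∃ U' : ℝ, U' = ∑ a ∈ A, ‖coeff a F‖ := ⟨_, rfl⟩
  have hU0 : 0 ≤ U := by
    rw [hU]
    exact Finset.sum_nonneg (fun _ _ => norm_nonneg _)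
  have hUle : ∀ b ∈ B, ‖coeff b F‖ ≤ U := by
    intro b hb
    rw [hU]
    exact Finset.single_le_sum (f := fun b => ‖coeff b F‖) (fun _ _ => norm_nonneg _) hb
  have hU'le : ∀ a ∈ A, ‖coeff a F‖ ≤ U' := by
    intro b hb
    rw [hU']
    exact Finset.single_le_sum (f := fun b => ‖coeff b F‖) (fun _ _ => norm_nonneg _) hb
  have h3 : U' ≤ P * U := by
    rw [hU', hP, Finset.sum_mul]
    apply Finset.sum_le_sum
    intro a ha
    rw [h1 a ha, Finset.sum_mul]
    refine (norm_sum_le _ _).trans (Finset.sum_le_sum ?_)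
    intro b hb
    rw [norm_mul]
    exact mul_le_mul_of_nonneg_left (hUle b hb) (norm_nonneg _)
  have h4 : t * U ≤ Q * U' := by
    rw [hU, hQ, Finset.mul_sum, Finset.sum_mul]
    apply Finset.sum_le_sum
    intro b hb
    have h5 := h2 b hb
    have htb : 0 < t ^ om w b := by positivity
    apply le_of_mul_le_mul_left _ htb
    calc t ^ om w b * (t * ‖coeff b F‖) = t * ‖(t : ℂ) ^ om w b * coeff b F‖ := by
          rw [norm_mul, norm_pow, Complex.norm_real, Real.norm_of_nonneg ht0.le]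
          ring
      _ = t * ‖∑ a ∈ A, q b a * ((t : ℂ) ^ om w a * coeff a F)‖ := by rw [h5]
      _ ≤ t * ∑ a ∈ A, ‖q b a * ((t : ℂ) ^ om w a * coeff a F)‖ :=
          mul_le_mul_of_nonneg_left (norm_sum_le _ _) ht0.le
      _ = ∑ a ∈ A, ‖q b a‖ * (t ^ (om w a + 1) * ‖coeff a F‖) := by
          rw [Finset.mul_sum]
          apply Finset.sum_congr rfl
          intro a _
          rw [norm_mul, norm_mul, norm_pow, Complex.norm_real, Real.norm_of_nonneg ht0.le]
          ring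
      _ ≤ ∑ a ∈ A, ‖q b a‖ * (t ^ om w b * U') := by
          apply Finset.sum_le_sum
          intro a ha
          apply mul_le_mul_of_nonneg_left _ (norm_nonneg _)
          apply mul_le_mul _ (hU'le a ha) (norm_nonneg _) htb.le
          apply pow_le_pow_right₀ ht1
          have := hw a ha b hb
          omega
      _ = t ^ om w b * ((∑ a ∈ A, ‖q b a‖) * U') := by
          rw [Finset.sum_mul, Finset.mul_sum]
          apply Finset.sum_congr rfl
          intro a _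
          ring
  have h6 : t * U ≤ Q * P * U := by
    refine h4.trans ?_
    rw [mul_assoc]
    exact mul_le_mul_of_nonneg_left h3 hQ0
  have hU00 : U = 0 := by
    rw [ht] at h6
    nlinarith
  have hU'0 : U' ≤ 0 := by
    rw [hU00, mul_zero] at h3
    exact h3
  ext b
  rw [coeff_zero, ← norm_eq_zero]
  by_cases hb : b ∈ F.support
  · rcases Finset.mem_union.1 (hF hb) with h7 | h7
    · exact le_antisymm ((hU'le b h7).trans hU'0) (norm_nonneg _)
    · exact le_antisymm ((hUle b h7).trans hU00.le) (norm_nonneg _)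
  · rw [notMem_support_iff.1 hb, norm_zero]

/-- **Killing.** -/
theorem IndT.kill (L : List (Fin 3 × ℕ))
    (hA : IndT A T (fun i => m i - L.length)) (hB : IndT B T m) (hLA : ∀ a ∈ A, fac L a ≠ 0)
    (hLB : ∀ b ∈ B, fac L b = 0) : IndT (A ∪ B) T m := by
  classical
  obtain ⟨v₁, hv₁⟩ := hA
  obtain ⟨v₂, hv₂⟩ := hB
  obtain ⟨G₁, hG₁, hG₁'⟩ := exists_generic A (fun i => if i ∈ T then m i - L.length else 0)
    ⟨v₁, fun F hF hm => hv₁ F hF (fun i hi => by
      have := hm i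
      simp only [if_pos hi] at this
      exact this)⟩
  obtain ⟨G₂, hG₂, hG₂'⟩ := exists_generic B (fun i => if i ∈ T then m i else 0)
    ⟨v₂, fun F hF hm => hv₂ F hF (fun i hi => by
      have := hm i
      simp only [if_pos hi] at this
      exact this)⟩
  obtain ⟨x, hx⟩ : ∃ x : Fin n × Fin 3 → ℂ, eval x (G₁ * G₂) ≠ 0 := by
    by_contra hcon
    push Not at hcon
    apply mul_ne_zero hG₁ hG₂
    apply MvPolynomial.funext
    intro x
    rw [hcon x, map_zero]
  rw [map_mul] at hx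
  refine ⟨fun i k => x (i, k), ?_⟩
  intro F hF hm
  have h1 := hG₁' (fun i k => x (i, k)) (left_ne_zero_of_mul hx) (ops L F) (by
    intro b hb
    rw [mem_support_iff, coeff_ops] at hb
    have hb1 := left_ne_zero_of_mul hb
    have hb2 := right_ne_zero_of_mul hb
    rcases Finset.mem_union.1 (hF (mem_support_iff.2 hb2)) with h | h
    · exact h
    · exact absurd (by rw [hLB b h, Int.cast_zero]) hb1) (by
    intro i
    by_cases hi : i ∈ T
    · simp only [if_pos hi]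
      by_cases hL : L.length ≤ m i
      · apply MG.ops
        rw [Nat.sub_add_cancel hL]
        exact hm i hi
      · intro s hs
        omega
    · simp only [if_neg hi]
      intro s hs
      omega)
  apply hG₂' (fun i k => x (i, k)) (right_ne_zero_of_mul hx) F _ (by
    intro i
    by_cases hi : i ∈ T
    · simp only [if_pos hi]
      exact hm i hi
    · simp only [if_neg hi]
      intro s hs
      omega)
  intro b hb
  rcases Finset.mem_union.1 (hF hb) with h | h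
  · exfalso
    have h2 := congrArg (coeff b) h1
    rw [coeff_ops, coeff_zero] at h2
    rcases mul_eq_zero.1 h2 with h3 | h3
    · exact hLA b h (by exact_mod_cast h3)
    · exact (mem_support_iff.1 hb) h3
  · exact h

end

/-- very general points -/
theorem generic_allT (n : ℕ) : ∃ G : ℕ → MvPolynomial (Fin n × Fin 3) ℂ, (∀ l, G l ≠ 0) ∧
    ∀ v : Fin n → Fin 3 → ℂ, (∀ l, eval (fun q : Fin n × Fin 3 => v q.1 q.2) (G l) ≠ 0) →
      ∀ (A : Finset (Fin 3 →₀ ℕ)) (T : Finset (Fin n)) (m : Fin n → ℕ), IndT A T m →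
        ∀ F : MvPolynomial (Fin 3) ℂ, F.support ⊆ A → (∀ i ∈ T, MG (v i) F (m i)) → F = 0 := by
  classical
  have hex : ∀ t : Finset (Fin 3 →₀ ℕ) × Finset (Fin n) × (Fin n → ℕ),
      ∃ G : MvPolynomial (Fin n × Fin 3) ℂ, G ≠ 0 ∧ (IndT t.1 t.2.1 t.2.2 →
        ∀ v : Fin n → Fin 3 → ℂ, eval (fun q : Fin n × Fin 3 => v q.1 q.2) G ≠ 0 →
        ∀ F : MvPolynomial (Fin 3) ℂ, F.support ⊆ t.1 → (∀ i ∈ t.2.1, MG (v i) F (t.2.2 i)) →
        F = 0) := by
    rintro ⟨A, T, m⟩
    by_cases h : IndT A T m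
    · obtain ⟨v₀, hv₀⟩ := h
      obtain ⟨G, hG, hG'⟩ := exists_generic (n := n) A (fun i => if i ∈ T then m i else 0)
        ⟨v₀, fun F hF hm => hv₀ F hF (fun i hi => by
          have := hm i
          simp only [if_pos hi] at this
          exact this)⟩
      refine ⟨G, hG, fun _ v hv F hF hm => hG' v hv F hF ?_⟩
      intro i
      by_cases hi : i ∈ T
      · simp only [if_pos hi]
        exact hm i hi
      · simp only [if_neg hi]
        intro s hs
        omega
    · exact ⟨1, one_ne_zero, fun h1 => absurd h1 h⟩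
  choose g hg0 hg using hex
  obtain ⟨e, he⟩ := exists_surjective_nat
    (Finset (Fin 3 →₀ ℕ) × Finset (Fin n) × (Fin n → ℕ))
  refine ⟨fun l => g (e l), fun l => hg0 _, ?_⟩
  intro v hv A T m hind F hF hm
  obtain ⟨l, hl⟩ := he (A, T, m)
  have hvl := hv l
  simp only at hvl
  rw [hl] at hvl
  exact hg (A, T, m) hind v hvl F hF hm

end Pool.Agent.Y910.N
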