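import Pool.Agent.Y910.N.N11

/-!
Cutting in the lexicographic order; few columns.
-/

open MvPolynomial Finset

namespace Pool.Agent.Y910.N

/-- the lexicographic order on the exponents of degree `d` -/
def lx (d : ℕ) (j k : Fin 3) (a : Fin 3 →₀ ℕ) : ℕ := (d + 1) * a j + a k

/-- the corresponding weights -/
def lw (d : ℕ) (j k : Fin 3) : Fin 3 → ℕ := fun i => if i = j then d + 1 else if i = k then 1 else 0

lemma om_lw {d : ℕ} {j k : Fin 3} (hjk : j ≠ k) (a : Fin 3 →₀ ℕ) :
    om (lw d j k) a = lx d j k a := by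
  rw [om, lx, Fin.sum_univ_three]
  fin_cases j <;> fin_cases k <;> simp_all [lw] <;> ring

lemma le_of_deg {a : Fin 3 →₀ ℕ} {d : ℕ} (h : ∑ i, a i = d) (k : Fin 3) : a k ≤ d := by
  rw [← h]
  exact Finset.single_le_sum (f := fun i => a i) (fun _ _ => Nat.zero_le _) (Finset.mem_univ k)

lemma lx_inj {d : ℕ} {j k : Fin 3} (hjk : j ≠ k) {a b : Fin 3 →₀ ℕ} (ha : ∑ i, a i = d)
    (hb : ∑ i, b i = d) (h : lx d j k a = lx d j k b) : a = b := by
  have h1 := le_of_deg ha k
  have h2 := le_of_deg hb k
  rw [lx, lx] at h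
  have h3 : a j = b j := by
    rcases lt_trichotomy (a j) (b j) with h4 | h4 | h4
    · nlinarith
    · exact h4
    · nlinarith
  rw [h3] at h
  exact eq_of_two hjk (ha.trans hb.symm) h3 (by omega)

/-- the number of columns -/
def nc (A : Finset (Fin 3 →₀ ℕ)) (j : Fin 3) : ℕ := (A.image (fun a => a j)).card

lemma nc_mono {A B : Finset (Fin 3 →₀ ℕ)} (h : A ⊆ B) (j : Fin 3) : nc A j ≤ nc B j :=
  Finset.card_le_card (Finset.image_subset_image h)

/-- the weighted size -/
def Wt (z : ℕ) (A : Finset (Fin 3 →₀ ℕ)) (j : Fin 3) : ℕ := A.card + z * nc A j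

lemma nc_add_nc {A : Finset (Fin 3 →₀ ℕ)} {d : ℕ} {j k : Fin 3}
    (hdeg : ∀ a ∈ A, ∑ i, a i = d) (t : ℕ) :
    nc (A.filter (fun a => lx d j k a < t)) j + nc (A.filter (fun a => ¬ lx d j k a < t)) j
      ≤ nc A j + 1 := by
  classical
  obtain ⟨P, hP⟩ : ∃ P, P = A.filter (fun a => lx d j k a < t) := ⟨_, rfl⟩
  obtain ⟨Q, hQ⟩ : ∃ Q, Q = A.filter (fun a => ¬ lx d j k a < t) := ⟨_, rfl⟩
  rw [← hP, ← hQ, nc, nc, nc, ← Finset.card_union_add_card_inter]
  apply Nat.add_le_add
  · apply Finset.card_le_card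
    rw [← Finset.image_union, hP, hQ, Finset.filter_union_filter_not_eq]
  · have h1 : P.image (fun a => a j) ∩ Q.image (fun a => a j) ⊆ {t / (d + 1)} := by
      intro c hc
      rw [Finset.mem_inter, Finset.mem_image, Finset.mem_image] at hc
      obtain ⟨⟨a, ha, hac⟩, ⟨b, hb, hbc⟩⟩ := hc
      rw [hP, Finset.mem_filter, lx] at ha
      rw [hQ, Finset.mem_filter, lx] at hb
      rw [Finset.mem_singleton]
      have h2 := le_of_deg (hdeg b hb.1) k
      apply le_antisymm
      · rw [Nat.le_div_iff_mul_le (by omega), ← hac, mul_comm]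
        omega
      · rw [← Nat.lt_succ_iff, Nat.div_lt_iff_lt_mul (by omega), ← hbc, Nat.succ_eq_add_one]
        have : (b j + 1) * (d + 1) = (d + 1) * b j + (d + 1) := by ring
        omega
    exact (Finset.card_le_card h1).trans (Finset.card_singleton _).le

lemma card_add_card (A : Finset (Fin 3 →₀ ℕ)) (d : ℕ) (j k : Fin 3) (t : ℕ) :
    (A.filter (fun a => lx d j k a < t)).card + (A.filter (fun a => ¬ lx d j k a < t)).card
      = A.card := Finset.card_filter_add_card_filter_not _

/-- cutting -/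
theorem cutW {A : Finset (Fin 3 →₀ ℕ)} {d : ℕ} {j k : Fin 3} (hjk : j ≠ k)
    (hdeg : ∀ a ∈ A, ∑ i, a i = d) (z C : ℕ) :
    ∃ t, Wt z (A.filter (fun a => lx d j k a < t)) j ≤ C ∧
      (Wt z (A.filter (fun a => ¬ lx d j k a < t)) j + C ≤ Wt z A j + 2 * z ∨
        A.filter (fun a => ¬ lx d j k a < t) = ∅) := by
  classical
  by_cases hAC : Wt z A j ≤ C
  · refine ⟨A.sup (lx d j k) + 1, ?_, Or.inr ?_⟩
    · refine le_trans ?_ hAC
      rw [Wt, Wt]
      exact Nat.add_le_add (Finset.card_le_card (Finset.filter_subset _ _))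
        (Nat.mul_le_mul_left _ (nc_mono (Finset.filter_subset _ _) j))
    · rw [Finset.filter_eq_empty_iff]
      intro a ha
      have := Finset.le_sup (f := lx d j k) ha
      omega
  push Not at hAC
  have hex : ∃ t, C < Wt z (A.filter (fun a => lx d j k a < t + 1)) j := by
    refine ⟨A.sup (lx d j k), ?_⟩
    rw [Finset.filter_true_of_mem]
    · exact hAC
    · intro a ha
      have := Finset.le_sup (f := lx d j k) ha
      omega
  obtain ⟨t, ht⟩ : ∃ t, t = Nat.find hex := ⟨_, rfl⟩
  have h1 := Nat.find_spec hex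
  rw [← ht] at h1
  have h2 : Wt z (A.filter (fun a => lx d j k a < t)) j ≤ C := by
    rcases Nat.eq_zero_or_pos t with h0 | h0
    · rw [h0, Finset.filter_false_of_mem (by intro a _; omega)]
      simp [Wt, nc]
    · have := Nat.find_min hex (m := t - 1) (by rw [← ht]; omega)
      rw [Nat.sub_add_cancel h0] at this
      omega
  refine ⟨t, h2, Or.inl ?_⟩
  obtain ⟨P, hP⟩ : ∃ P, P = A.filter (fun a => lx d j k a < t) := ⟨_, rfl⟩
  obtain ⟨Q, hQ⟩ : ∃ Q, Q = A.filter (fun a => ¬ lx d j k a < t) := ⟨_, rfl⟩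
  have h3 : Wt z (A.filter (fun a => lx d j k a < t + 1)) j ≤ Wt z P j + (1 + z) := by
    by_cases hex' : ∃ a ∈ A, lx d j k a = t
    · obtain ⟨a, ha, hat⟩ := hex'
      have h4 : A.filter (fun a => lx d j k a < t + 1) ⊆ insert a P := by
        intro b hb
        rw [Finset.mem_filter] at hb
        rw [Finset.mem_insert, hP, Finset.mem_filter]
        by_cases h5 : lx d j k b < t
        · exact Or.inr ⟨hb.1, h5⟩
        · left
          apply lx_inj hjk (hdeg b hb.1) (hdeg a ha)
          omega
      have h5 := Finset.card_le_card h4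
      have h6 := Finset.card_insert_le a P
      have h7 : nc (A.filter (fun a => lx d j k a < t + 1)) j ≤ nc P j + 1 := by
        refine (nc_mono h4 j).trans ?_
        rw [nc, Finset.image_insert]
        exact Finset.card_insert_le _ _
      rw [Wt, Wt]
      have h8 := Nat.mul_le_mul_left z h7
      rw [mul_add, mul_one] at h8
      omega
    · have h4 : A.filter (fun a => lx d j k a < t + 1) ⊆ P := by
        intro b hb
        rw [Finset.mem_filter] at hb
        rw [hP, Finset.mem_filter]
        refine ⟨hb.1, ?_⟩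
        by_contra h5
        exact hex' ⟨b, hb.1, by omega⟩
      have h5 := Finset.card_le_card h4
      have h8 := Nat.mul_le_mul_left z (nc_mono h4 j)
      rw [Wt, Wt]
      omega
  have h4 := nc_add_nc (j := j) (k := k) hdeg t
  have h5 := card_add_card A d j k t
  rw [← hP, ← hQ] at h4 h5
  rw [← hQ]
  rw [Wt] at h3 ⊢
  rw [Wt] at h1 h3 ⊢
  have h6 := Nat.mul_le_mul_left z h4
  rw [mul_add, mul_add, mul_one] at h6
  omega

/-- at most `m` exponents are independent at one point of multiplicity `m` -/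
lemma ind1_small {A : Finset (Fin 3 →₀ ℕ)} {d m : ℕ} (hdeg : ∀ a ∈ A, ∑ i, a i = d)
    (hA : A.card ≤ m) : Ind1 A m := by
  classical
  apply young (j := 0) hdeg
  intro s hs hne
  obtain ⟨T, hT⟩ : ∃ T, T = (A.image (fun a => a 0)).filter (fun c => s ≤ (col A 0 c).card) :=
    ⟨_, rfl⟩
  rw [← hT] at hne ⊢
  have h1 : T.card * s ≤ A.card := by
    have h1 : ∑ c ∈ T, (col A 0 c).card ≤ A.card := by
      rw [← Finset.card_biUnion]
      · apply Finset.card_le_card
        intro b hb
        rw [Finset.mem_biUnion] at hb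
        obtain ⟨c, _, h⟩ := hb
        exact (mem_col.1 h).1
      · intro c _ c' _ hcc
        rw [Function.onFun, Finset.disjoint_left]
        intro b hb hb'
        exact hcc ((mem_col.1 hb).2.symm.trans (mem_col.1 hb').2)
    refine le_trans ?_ h1
    rw [← smul_eq_mul]
    apply Finset.card_nsmul_le_sum
    intro c hc
    rw [hT, Finset.mem_filter] at hc
    exact hc.2
  have h2 : 1 ≤ T.card := Finset.card_pos.2 hne
  nlinarith

/-- **Trivial bound.** -/
theorem indT_sum {n : ℕ} {d : ℕ} {m : Fin n → ℕ} (T : Finset (Fin n)) :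
    ∀ A : Finset (Fin 3 →₀ ℕ), (∀ a ∈ A, ∑ i, a i = d) → A.card ≤ ∑ i ∈ T, m i →
      IndT A T m := by
  classical
  induction T using Finset.induction_on with
  | empty =>
    intro A _ hA
    rw [Finset.sum_empty] at hA
    rw [Finset.card_eq_zero.1 (by omega : A.card = 0)]
    exact IndT.empty _ _
  | insert i T hi ih =>
    intro A hdeg hA
    rw [Finset.sum_insert hi] at hA
    have h01 : (0 : Fin 3) ≠ 1 := by decide
    obtain ⟨t, h1, h2⟩ := cutW h01 hdeg 0 (m i)
    simp only [Wt, zero_mul, add_zero, mul_zero] at h1 h2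
    have h3 := card_add_card A d 0 1 t
    have h4 : IndT (A.filter (fun a => lx d 0 1 a < t)) {i} m := by
      apply Ind1.indT _ (Finset.mem_singleton_self i)
      apply ind1_small (d := d) _ h1
      intro a ha
      exact hdeg a (Finset.mem_filter.1 ha).1
    have h5 : IndT (A.filter (fun a => ¬ lx d 0 1 a < t)) T m := by
      apply ih
      · intro a ha
        exact hdeg a (Finset.mem_filter.1 ha).1
      · rcases h2 with h2 | h2
        · omega
        · rw [h2, Finset.card_empty]
          exact Nat.zero_le _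
    have h6 := IndT.glue (lw d 0 1) h4 h5 (Finset.disjoint_singleton_left.2 hi) (by
      intro a ha b hb
      rw [om_lw h01, om_lw h01]
      have h7 := (Finset.mem_filter.1 ha).2
      have h8 := (Finset.mem_filter.1 hb).2
      omega)
    rw [Finset.filter_union_filter_not_eq] at h6
    exact h6

/-- **Few columns.** -/
theorem indT_cols {n : ℕ} {d l : ℕ} {j : Fin 3} {T : Finset (Fin n)} (k : ℕ) :
    ∀ (A : Finset (Fin 3 →₀ ℕ)) (m : Fin n → ℕ), (∀ a ∈ A, ∑ i, a i = d) → nc A j ≤ k →
      (∀ c, (col A j c).card ≤ l) → l ≤ ∑ i ∈ T, (m i + 1 - k) → IndT A T m := by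
  classical
  induction k with
  | zero =>
    intro A m _ hA _ _
    have h1 : A = ∅ := by
      have := Finset.card_eq_zero.1 (Nat.le_zero.1 hA)
      exact Finset.image_eq_empty.1 this
    rw [h1]
    exact IndT.empty _ _
  | succ k ih =>
    intro A m hdeg hA hl hlT
    rcases A.eq_empty_or_nonempty with h0 | ⟨a₀, ha₀⟩
    · rw [h0]
      exact IndT.empty _ _
    obtain ⟨A', hA'⟩ : ∃ A', A' = A.filter (fun b => b j ≠ a₀ j) := ⟨_, rfl⟩
    have hA'A : A' ⊆ A := by rw [hA']; exact Finset.filter_subset _ _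
    have h1 : IndT A' T (fun i => m i - 1) := by
      apply ih
      · intro a ha
        exact hdeg a (hA'A ha)
      · have h2 : A'.image (fun a => a j) ⊆ (A.image (fun a => a j)).erase (a₀ j) := by
          intro c hc
          rw [Finset.mem_image] at hc
          obtain ⟨b, hb, rfl⟩ := hc
          rw [hA', Finset.mem_filter] at hb
          rw [Finset.mem_erase]
          exact ⟨hb.2, Finset.mem_image_of_mem _ hb.1⟩
        have h3 := Finset.card_le_card h2
        rw [Finset.card_erase_of_mem (Finset.mem_image_of_mem _ ha₀)] at h3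
        rw [nc] at hA ⊢
        omega
      · intro c
        refine le_trans (Finset.card_le_card ?_) (hl c)
        intro b hb
        rw [mem_col] at hb ⊢
        exact ⟨hA'A hb.1, hb.2⟩
      · refine hlT.trans (Finset.sum_le_sum ?_)
        intro i _
        omega
    have h2 : IndT (col A j (a₀ j)) T m := by
      apply indT_sum (d := d)
      · intro a ha
        exact hdeg a (mem_col.1 ha).1
      · refine (hl _).trans (hlT.trans (Finset.sum_le_sum ?_))
        intro i _
        omega
    have h3 := IndT.kill [(j, a₀ j)] (m := m) (T := T) (A := A') (B := col A j (a₀ j)) h1 h2 (by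
      intro a ha
      rw [hA', Finset.mem_filter] at ha
      apply fac_ne_zero
      intro t ht
      rw [List.mem_singleton] at ht
      rw [ht]
      exact ha.2) (by
      intro a ha
      rw [mem_col] at ha
      exact fac_eq_zero (t := (j, a₀ j)) (List.mem_singleton_self _) ha.2)
    apply h3.mono _ le_rfl (fun _ _ => le_rfl)
    intro a ha
    rw [Finset.mem_union, hA', Finset.mem_filter, mem_col]
    by_cases h4 : a j = a₀ j
    · exact Or.inr ⟨ha, h4⟩
    · exact Or.inl ⟨ha, h4⟩

end Pool.Agent.Y910.N
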