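import Pool.Agent.Y910.N.N7
import Pool.Agent.Y910.N.N12

/-!
Binary trees of points.
-/

open MvPolynomial Finset

namespace Pool.Agent.Y910.N

/-- `T` is the set of leaves of a binary tree of height `h` in which the point `i` sits at height
at most `e i` -/
inductive Fill {n : ℕ} (e : Fin n → ℕ) : ℕ → Finset (Fin n) → Prop
  | leaf (i : Fin n) (h : ℕ) : h ≤ e i → Fill e h {i}
  | node (h : ℕ) (T₁ T₂ : Finset (Fin n)) : Fill e h T₁ → Fill e h T₂ → Disjoint T₁ T₂ →
      Fill e (h + 1) (T₁ ∪ T₂)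

lemma Fill.sum {n : ℕ} {e : Fin n → ℕ} {h : ℕ} {T : Finset (Fin n)} (hF : Fill e h T) :
    2 ^ h ≤ ∑ i ∈ T, 2 ^ e i := by
  induction hF with
  | leaf i h hi =>
    rw [Finset.sum_singleton]
    exact Nat.pow_le_pow_right (by norm_num) hi
  | node h T₁ T₂ _ _ hd ih₁ ih₂ =>
    rw [Finset.sum_union hd, pow_succ]
    omega

lemma exists_fill {n : ℕ} {e : Fin n → ℕ} (I : ℕ) : ∀ T : Finset (Fin n), (∀ i ∈ T, e i ≤ I) →
    2 ^ I ≤ ∑ i ∈ T, 2 ^ e i → ∃ T' ⊆ T, Fill e I T' ∧ ∑ i ∈ T', 2 ^ e i = 2 ^ I := by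
  classical
  induction I with
  | zero =>
    intro T hT hsum
    have hne : T.Nonempty := by
      by_contra h
      rw [Finset.not_nonempty_iff_eq_empty] at h
      rw [h] at hsum
      simp at hsum
    obtain ⟨i, hi⟩ := hne
    refine ⟨{i}, Finset.singleton_subset_iff.2 hi, Fill.leaf i 0 (Nat.zero_le _), ?_⟩
    rw [Finset.sum_singleton]
    congr 1
    exact Nat.le_zero.1 (hT i hi)
  | succ I ih =>
    intro T hT hsum
    by_cases hex : ∃ i ∈ T, e i = I + 1
    · obtain ⟨i, hi, hei⟩ := hex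
      refine ⟨{i}, Finset.singleton_subset_iff.2 hi, Fill.leaf i _ hei.ge, ?_⟩
      rw [Finset.sum_singleton, hei]
    push Not at hex
    have hT' : ∀ i ∈ T, e i ≤ I := by
      intro i hi
      have := hT i hi
      have := hex i hi
      omega
    have h2 : 2 ^ (I + 1) = 2 ^ I + 2 ^ I := by rw [pow_succ]; ring
    obtain ⟨T₁, h₁, hF₁, hs₁⟩ := ih T hT' (by omega)
    have h3 : ∑ i ∈ T \ T₁, 2 ^ e i + ∑ i ∈ T₁, 2 ^ e i = ∑ i ∈ T, 2 ^ e i :=
      Finset.sum_sdiff h₁
    obtain ⟨T₂, h₂, hF₂, hs₂⟩ := ih (T \ T₁) (fun i hi => hT' i (Finset.sdiff_subset hi))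
      (by omega)
    have hd : Disjoint T₁ T₂ := by
      rw [Finset.disjoint_left]
      intro i hi hi'
      exact (Finset.mem_sdiff.1 (h₂ hi')).2 hi
    refine ⟨T₁ ∪ T₂, Finset.union_subset h₁ (h₂.trans Finset.sdiff_subset),
      Fill.node I T₁ T₂ hF₁ hF₂ hd, ?_⟩
    rw [Finset.sum_union hd, hs₁, hs₂, h2]

/-- **Trees.** -/
theorem tree {n : ℕ} {e : Fin n → ℕ} {h : ℕ} {T : Finset (Fin n)} (hF : Fill e h T)
    {s g m₀ z B d : ℕ} {j k : Fin 3} (hjk : j ≠ k) (hs : 1 ≤ s) (hz : 1 ≤ z)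
    (hsg : 2 * s + g ≤ m₀) (hzg : s * B ≤ z * g) :
    ∀ b ≤ B, ∀ A : Finset (Fin 3 →₀ ℕ), (∀ a ∈ A, ∑ i, a i = d) →
      (∀ c, (col A j c).card ≤ 2 ^ h * (2 * s)) →
      Wt z A j + 2 ^ h * (2 * z) ≤ 2 ^ h * (s * b) + 2 * z →
      IndT A T (fun i => 2 ^ e i * m₀ + b) := by
  classical
  induction hF with
  | leaf i h hi =>
    intro b hb A hdeg hcol hW
    apply Ind1.indT (i := i) _ (Finset.mem_singleton_self i)
    have hpow : 1 ≤ 2 ^ h := Nat.one_le_two_pow
    have hnc : nc A j ≤ 2 ^ h * g := by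
      have h1 : z * nc A j ≤ z * (2 ^ h * g) := by
        have h2 : 2 ^ h * (s * b) ≤ 2 ^ h * (z * g) :=
          Nat.mul_le_mul_left _ ((Nat.mul_le_mul_left _ hb).trans hzg)
        have h3 : 2 * z ≤ 2 ^ h * (2 * z) := Nat.le_mul_of_pos_left _ hpow
        have h4 : z * (2 ^ h * g) = 2 ^ h * (z * g) := by ring
        rw [Wt] at hW
        omega
      exact Nat.le_of_mul_le_mul_left h1 hz
    apply ind1_box (j := j) (p := 2 ^ h * g) (q := 2 ^ h * (2 * s)) hdeg hnc
      (fun a _ => hcol _)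
    have h1 : 2 ^ h ≤ 2 ^ e i := Nat.pow_le_pow_right (by norm_num) hi
    have h2 : 2 ^ h * g + 2 ^ h * (2 * s) = 2 ^ h * (2 * s + g) := by ring
    have h3 : 2 ^ h * (2 * s + g) ≤ 2 ^ e i * m₀ := Nat.mul_le_mul h1 hsg
    omega
  | node h T₁ T₂ hF₁ hF₂ hd ih₁ ih₂ =>
    intro b hb A hdeg hcol hW
    obtain ⟨E, hE⟩ : ∃ E, E = 2 ^ h := ⟨_, rfl⟩
    have hE1 : 1 ≤ E := by rw [hE]; exact Nat.one_le_two_pow
    have hE2 : 2 ^ (h + 1) = 2 * E := by rw [hE, pow_succ]; ring
    rw [hE2] at hcol hW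
    rw [← hE] at ih₁ ih₂
    obtain ⟨H, hH⟩ : ∃ H, H = (A.image (fun a => a j)).filter
        (fun c => E * (2 * s) < (col A j c).card) := ⟨_, rfl⟩
    have hHmem : ∀ c, c ∈ H ↔ E * (2 * s) < (col A j c).card := by
      intro c
      rw [hH, Finset.mem_filter, Finset.mem_image]
      constructor
      · exact fun h => h.2
      · intro h
        refine ⟨?_, h⟩
        obtain ⟨a, ha⟩ := Finset.card_pos.1 (lt_of_le_of_lt (Nat.zero_le _) h)
        rw [mem_col] at ha
        exact ⟨a, ha.1, ha.2⟩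
    obtain ⟨q, hq⟩ : ∃ q, q = H.card := ⟨_, rfl⟩
    obtain ⟨R, hR⟩ : ∃ R, R = A.filter (fun a => a j ∉ H) := ⟨_, rfl⟩
    obtain ⟨K, hK⟩ : ∃ K, K = A.filter (fun a => a j ∈ H) := ⟨_, rfl⟩
    have hRA : R ⊆ A := by rw [hR]; exact Finset.filter_subset _ _
    have hKA : K ⊆ A := by rw [hK]; exact Finset.filter_subset _ _
    have hKR : K.card + R.card = A.card := by
      rw [hK, hR]
      exact Finset.card_filter_add_card_filter_not _
    have hKc : q * (E * (2 * s)) ≤ K.card := by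
      rw [hq]
      apply card_cols_mul_le (j := j)
      intro c hc
      have h1 : col K j c = col A j c := by
        ext b
        rw [mem_col, mem_col, hK, Finset.mem_filter]
        constructor
        · rintro ⟨⟨h3, _⟩, h4⟩
          exact ⟨h3, h4⟩
        · rintro ⟨h3, h4⟩
          exact ⟨⟨h3, by rw [h4]; exact hc⟩, h4⟩
      rw [h1]
      exact ((hHmem c).1 hc).le
    have hWR : Wt z R j + q * (E * (2 * s)) ≤ Wt z A j := by
      rw [Wt, Wt]
      have := Nat.mul_le_mul_left z (nc_mono hRA j)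
      omega
    have hqb : q ≤ b := by
      have h1 : q * (E * (2 * s)) ≤ 2 * E * (s * b) := by
        have h2 : 2 * z ≤ 2 * E * (2 * z) := Nat.le_mul_of_pos_left _ (by omega)
        omega
      have h2 : q * (E * (2 * s)) = (2 * E * s) * q := by ring
      have h3 : 2 * E * (s * b) = (2 * E * s) * b := by ring
      rw [h2, h3] at h1
      exact Nat.le_of_mul_le_mul_left h1 (by positivity)
    obtain ⟨b', hb'⟩ : ∃ b', b = b' + q := ⟨b - q, by omega⟩
    have hWR' : Wt z R j + 2 * E * (2 * z) ≤ 2 * E * (s * b') + 2 * z := by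
      have h1 : 2 * E * (s * b) = 2 * E * (s * b') + q * (E * (2 * s)) := by rw [hb']; ring
      omega
    obtain ⟨C, hC⟩ : ∃ C, C + E * (2 * z) = E * (s * b') + 2 * z := by
      refine ⟨E * (s * b') + 2 * z - E * (2 * z), Nat.sub_add_cancel ?_⟩
      have h1 : 2 * E * (2 * z) = 2 * (E * (2 * z)) := by ring
      have h2 : 2 * E * (s * b') = 2 * (E * (s * b')) := by ring
      omega
    have hdegR : ∀ a ∈ R, ∑ i, a i = d := fun a ha => hdeg a (hRA ha)
    have hcolR : ∀ c, (col R j c).card ≤ E * (2 * s) := by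
      intro c
      by_cases hc : c ∈ H
      · have h1 : col R j c = ∅ := by
          rw [Finset.eq_empty_iff_forall_notMem]
          intro a ha
          rw [mem_col, hR, Finset.mem_filter] at ha
          exact ha.1.2 (by rw [ha.2]; exact hc)
        rw [h1, Finset.card_empty]
        exact Nat.zero_le _
      · rw [hHmem, not_lt] at hc
        refine le_trans (Finset.card_le_card ?_) hc
        intro a ha
        rw [mem_col] at ha ⊢
        exact ⟨hRA ha.1, ha.2⟩
    obtain ⟨t, ht1, ht2⟩ := cutW hjk hdegR z C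
    obtain ⟨P, hP⟩ : ∃ P, P = R.filter (fun a => lx d j k a < t) := ⟨_, rfl⟩
    obtain ⟨Q, hQ⟩ : ∃ Q, Q = R.filter (fun a => ¬ lx d j k a < t) := ⟨_, rfl⟩
    rw [← hP] at ht1
    rw [← hQ] at ht2
    have hPR : P ⊆ R := by rw [hP]; exact Finset.filter_subset _ _
    have hQR : Q ⊆ R := by rw [hQ]; exact Finset.filter_subset _ _
    have hsub : ∀ S ⊆ R, ∀ c, (col S j c).card ≤ E * (2 * s) := by
      intro S hS c
      refine le_trans (Finset.card_le_card ?_) (hcolR c)
      intro a ha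
      rw [mem_col] at ha ⊢
      exact ⟨hS ha.1, ha.2⟩
    have hIP : IndT P T₁ (fun i => 2 ^ e i * m₀ + b') :=
      ih₁ b' (by omega) P (fun a ha => hdegR a (hPR ha)) (hsub P hPR) (by omega)
    have hIQ : IndT Q T₂ (fun i => 2 ^ e i * m₀ + b') := by
      rcases ht2 with ht2 | ht2
      · apply ih₂ b' (by omega) Q (fun a ha => hdegR a (hQR ha)) (hsub Q hQR)
        have h1 : 2 * E * (2 * z) = 2 * (E * (2 * z)) := by ring
        have h2 : 2 * E * (s * b') = 2 * (E * (s * b')) := by ring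
        omega
      · rw [ht2]
        exact IndT.empty _ _
    have hIR : IndT R (T₁ ∪ T₂) (fun i => 2 ^ e i * m₀ + b') := by
      have h1 := IndT.glue (lw d j k) hIP hIQ hd (by
        intro a ha c hc
        rw [om_lw hjk, om_lw hjk]
        rw [hP, Finset.mem_filter] at ha
        rw [hQ, Finset.mem_filter] at hc
        omega)
      rw [hP, hQ, Finset.filter_union_filter_not_eq] at h1
      exact h1
    have hIK : IndT K (T₁ ∪ T₂) (fun i => 2 ^ e i * m₀ + b) := by
      apply indT_cols (d := d) (l := 2 * E * (2 * s)) (j := j) q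
      · exact fun a ha => hdeg a (hKA ha)
      · rw [hq, nc]
        apply Finset.card_le_card
        intro c hc
        rw [Finset.mem_image] at hc
        obtain ⟨a, ha, rfl⟩ := hc
        rw [hK, Finset.mem_filter] at ha
        exact ha.2
      · intro c
        refine le_trans (Finset.card_le_card ?_) (hcol c)
        intro a ha
        rw [mem_col] at ha ⊢
        exact ⟨hKA ha.1, ha.2⟩
      · have h1 := (Fill.node h T₁ T₂ hF₁ hF₂ hd).sum
        rw [hE2] at h1
        calc 2 * E * (2 * s) ≤ (∑ i ∈ T₁ ∪ T₂, 2 ^ e i) * m₀ :=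
              Nat.mul_le_mul h1 (by omega)
          _ = ∑ i ∈ T₁ ∪ T₂, 2 ^ e i * m₀ := Finset.sum_mul _ _ _
          _ ≤ _ := by
              apply Finset.sum_le_sum
              intro i _
              omega
    have hfin := IndT.kill (fl j H) (A := R) (B := K) (T := T₁ ∪ T₂)
      (m := fun i => 2 ^ e i * m₀ + b) (hIR.mono le_rfl le_rfl (by
        intro i _
        rw [length_fl, ← hq]
        omega)) hIK (by
        intro a ha
        rw [hR, Finset.mem_filter] at ha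
        exact fac_fl_ne_zero ha.2) (by
        intro a ha
        rw [hK, Finset.mem_filter] at ha
        exact fac_fl_eq_zero ha.2)
    apply hfin.mono _ le_rfl (fun _ _ => le_rfl)
    intro a ha
    rw [Finset.mem_union, hR, hK, Finset.mem_filter, Finset.mem_filter]
    by_cases h4 : a j ∈ H
    · exact Or.inr ⟨ha, h4⟩
    · exact Or.inl ⟨ha, h4⟩

/-- **Blocks.** -/
theorem blocks {n : ℕ} {e : Fin n → ℕ} {s g m₀ z B d κ I : ℕ} {j k : Fin 3} (hjk : j ≠ k)
    (hs : 1 ≤ s) (hz : 1 ≤ z) (hsg : 2 * s + g ≤ m₀) (hzg : s * B ≤ z * g)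
    (hκ : s * B = κ + 2 * z) (J : ℕ) :
    ∀ (T : Finset (Fin n)) (A : Finset (Fin 3 →₀ ℕ)), 2 ^ I * J ≤ ∑ i ∈ T, 2 ^ e i →
      (∀ a ∈ A, ∑ i, a i = d) → (∀ c, (col A j c).card ≤ 2 ^ I * (2 * s)) →
      Wt z A j ≤ J * (2 ^ I * κ) → IndT A T (fun i => 2 ^ e i * m₀ + B) := by
  classical
  induction J using Nat.strong_induction_on with
  | _ J ih =>
    intro T A hsum hdeg hcol hW
    rcases Nat.eq_zero_or_pos J with hJ | hJ
    · rw [hJ, zero_mul, Wt] at hW
      rw [Finset.card_eq_zero.1 (by omega : A.card = 0)]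
      exact IndT.empty _ _
    obtain ⟨h, hIh, T', hT', hF, hs'⟩ : ∃ h, I ≤ h ∧ ∃ T' ⊆ T, Fill e h T' ∧
        ∑ i ∈ T', 2 ^ e i = 2 ^ h := by
      by_cases hex : ∃ i ∈ T, I ≤ e i
      · obtain ⟨i, hi, hIi⟩ := hex
        refine ⟨e i, hIi, {i}, Finset.singleton_subset_iff.2 hi, Fill.leaf i _ le_rfl, ?_⟩
        rw [Finset.sum_singleton]
      · push Not at hex
        obtain ⟨T', h1, h2, h3⟩ := exists_fill I T (fun i hi => (hex i hi).le)
          ((Nat.le_mul_of_pos_right _ hJ).trans hsum)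
        exact ⟨I, le_rfl, T', h1, h2, h3⟩
    obtain ⟨r, hr⟩ : ∃ r, r = 2 ^ (h - I) := ⟨_, rfl⟩
    have hr1 : 1 ≤ r := by rw [hr]; exact Nat.one_le_two_pow
    have hr2 : 2 ^ h = 2 ^ I * r := by
      rw [hr, ← pow_add]
      congr 1
      omega
    obtain ⟨t, ht1, ht2⟩ := cutW hjk hdeg z (2 ^ h * κ + 2 * z)
    obtain ⟨P, hP⟩ : ∃ P, P = A.filter (fun a => lx d j k a < t) := ⟨_, rfl⟩
    obtain ⟨Q, hQ⟩ : ∃ Q, Q = A.filter (fun a => ¬ lx d j k a < t) := ⟨_, rfl⟩
    rw [← hP] at ht1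
    rw [← hQ] at ht2
    have hPA : P ⊆ A := by rw [hP]; exact Finset.filter_subset _ _
    have hQA : Q ⊆ A := by rw [hQ]; exact Finset.filter_subset _ _
    have hsub : ∀ S ⊆ A, ∀ c, (col S j c).card ≤ 2 ^ I * (2 * s) := by
      intro S hS c
      refine le_trans (Finset.card_le_card ?_) (hcol c)
      intro a ha
      rw [mem_col] at ha ⊢
      exact ⟨hS ha.1, ha.2⟩
    have hIP : IndT P T' (fun i => 2 ^ e i * m₀ + B) := by
      apply tree hF hjk hs hz hsg hzg B le_rfl P (fun a ha => hdeg a (hPA ha))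
      · intro c
        exact (hsub P hPA c).trans (Nat.mul_le_mul_right _
          (Nat.pow_le_pow_right (by norm_num) hIh))
      · rw [hκ, mul_add]
        omega
    have hIQ : IndT Q (T \ T') (fun i => 2 ^ e i * m₀ + B) := by
      rcases ht2 with ht2 | ht2
      · apply ih (J - r) (by omega) (T \ T') Q _ (fun a ha => hdeg a (hQA ha)) (hsub Q hQA)
        · have h1 : Wt z Q j + r * (2 ^ I * κ) ≤ J * (2 ^ I * κ) := by
            have h2 : 2 ^ h * κ = r * (2 ^ I * κ) := by rw [hr2]; ring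
            omega
          rw [Nat.sub_mul]
          omega
        · have h1 : ∑ i ∈ T \ T', 2 ^ e i + ∑ i ∈ T', 2 ^ e i = ∑ i ∈ T, 2 ^ e i :=
            Finset.sum_sdiff hT'
          rw [hs', hr2] at h1
          rw [Nat.mul_sub]
          omega
      · rw [ht2]
        exact IndT.empty _ _
    have h1 := IndT.glue (lw d j k) hIP hIQ Finset.disjoint_sdiff (by
      intro a ha c hc
      rw [om_lw hjk, om_lw hjk]
      rw [hP, Finset.mem_filter] at ha
      rw [hQ, Finset.mem_filter] at hc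
      omega)
    rw [hP, hQ, Finset.filter_union_filter_not_eq, Finset.union_sdiff_of_subset hT'] at h1
    exact h1

end Pool.Agent.Y910.N
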