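import Pool.Agent.Y910.N.N13

/-!
The weighted counting inequality.
-/

open MvPolynomial Finset

namespace Pool.Agent.Y910.N

lemma arith1 {q μ : ℕ} (hq : q = μ / 6) (hμ : 38 ≤ μ) :
    2 * μ ^ 2 ≤ 37 * ((q - 2) * (μ - 3 * q)) := by
  obtain ⟨r, hr, hr5⟩ : ∃ r, μ = 6 * q + r ∧ r ≤ 5 := ⟨μ % 6, by omega, by omega⟩
  obtain ⟨p, hp⟩ : ∃ p, q = p + 6 := ⟨q - 6, by omega⟩
  have h1 : μ - 3 * q = 3 * (p + 6) + r := by omega
  have h2 : q - 2 = p + 4 := by omega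
  rw [h1, h2, hr, hp]
  interval_cases r <;> nlinarith [Nat.zero_le p]

/-- **The weighted counting inequality.** -/
theorem weight_bound {n : ℕ} {A : Finset (Fin 3 →₀ ℕ)} {d μ : ℕ} {m : Fin n → ℕ} (hμ : 1 ≤ μ)
    (hdeg : ∀ a ∈ A, ∑ i, a i = d)
    (hne : ¬ IndT A (univ.filter (fun i => μ ≤ m i)) m) :
    μ * ∑ i ∈ univ.filter (fun i => μ ≤ m i), m i ≤ 37 * A.card + 35 * d * μ := by
  classical
  obtain ⟨T, hT⟩ : ∃ T, T = univ.filter (fun i => μ ≤ m i) := ⟨_, rfl⟩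
  rw [← hT] at hne ⊢
  have hTm : ∀ i ∈ T, μ ≤ m i := by
    intro i hi
    rw [hT, Finset.mem_filter] at hi
    exact hi.2
  have h01 : (0 : Fin 3) ≠ 1 := by decide
  -- the trivial bound
  have htriv : ∑ i ∈ T, m i < A.card := by
    by_contra hcon
    exact hne (indT_sum T A hdeg (not_lt.1 hcon))
  by_cases hμd : d < μ
  · have hT0 : T = ∅ := by
      rw [Finset.eq_empty_iff_forall_notMem]
      intro i hi
      apply hne
      apply Ind1.indT (i := i) _ hi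
      apply ind1_lower (x := 0) (y := 0) h01 hdeg
      intro a ha
      have h1 := hdeg a ha
      rw [Fin.sum_univ_three] at h1
      have h2 := hTm i hi
      omega
    rw [hT0]
    simp
  push Not at hμd
  by_cases hμ37 : μ ≤ 37
  · have h1 : μ * ∑ i ∈ T, m i ≤ 37 * A.card := Nat.mul_le_mul hμ37 htriv.le
    omega
  push Not at hμ37
  obtain ⟨q, hq⟩ : ∃ q, q = μ / 6 := ⟨_, rfl⟩
  have hq6 : 6 ≤ q := by omega
  have hqμ : 6 * q ≤ μ := by omega
  have hμq : μ ≤ 6 * q + 5 := by omega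
  obtain ⟨B, hB⟩ : ∃ B, B = μ - 3 * q := ⟨_, rfl⟩
  have hBμ : 3 * q + B = μ := by omega
  obtain ⟨κ, hκ⟩ : ∃ κ, κ = (q - 2) * B := ⟨_, rfl⟩
  have hκ2 : q * B = κ + 2 * B := by
    rw [hκ, Nat.sub_mul, Nat.sub_add_cancel]
    exact Nat.mul_le_mul_right _ (by omega)
  have hex : ∃ I : ℕ, d + 1 ≤ 2 ^ I * (2 * q) := by
    refine ⟨d + 1, ?_⟩
    have h1 : d + 1 < 2 ^ (d + 1) := Nat.lt_two_pow_self
    have h2 : 2 ^ (d + 1) * 1 ≤ 2 ^ (d + 1) * (2 * q) := Nat.mul_le_mul_left _ (by omega)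
    omega
  obtain ⟨I, hI⟩ : ∃ I, I = Nat.find hex := ⟨_, rfl⟩
  have hI1 := Nat.find_spec hex
  rw [← hI] at hI1
  have hI0 : I ≠ 0 := by
    rintro h0
    rw [h0, pow_zero, one_mul] at hI1
    omega
  have hI2 : 2 ^ I * q ≤ d := by
    have h1 := Nat.find_min hex (m := I - 1) (by rw [← hI]; omega)
    have h2 : 2 ^ I = 2 * 2 ^ (I - 1) := by
      rw [← pow_succ']
      congr 1
      omega
    have h3 : 2 ^ (I - 1) * (2 * q) = 2 ^ I * q := by rw [h2]; ring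
    omega
  obtain ⟨E, hE⟩ : ∃ E, E = 2 ^ I := ⟨_, rfl⟩
  have hE1 : 1 ≤ E := by rw [hE]; exact Nat.one_le_two_pow
  have hκ1 : 1 ≤ κ := by
    rw [hκ]
    exact Nat.mul_pos (by omega) (by omega)
  obtain ⟨J, hJ⟩ : ∃ J, J = Wt B A 0 / (E * κ) + 1 := ⟨_, rfl⟩
  have hEκ : 0 < E * κ := Nat.mul_pos hE1 hκ1
  have hJ1 : Wt B A 0 ≤ J * (E * κ) := by
    rw [hJ]
    rw [mul_comm]
    exact (Nat.lt_mul_div_succ (Wt B A 0) hEκ).le
  have hJ2 : J * (E * κ) ≤ Wt B A 0 + E * κ := by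
    rw [hJ, add_mul, one_mul]
    exact Nat.add_le_add_right (Nat.div_mul_le_self _ _) _
  obtain ⟨e, he⟩ : ∃ e : Fin n → ℕ, ∀ i, e i = Nat.log 2 (m i / μ) := ⟨_, fun _ => rfl⟩
  have he1 : ∀ i ∈ T, 2 ^ e i * μ ≤ m i := by
    intro i hi
    have h1 : m i / μ ≠ 0 := by
      have := Nat.div_pos (hTm i hi) hμ
      omega
    have h2 := Nat.pow_log_le_self 2 h1
    rw [← he] at h2
    exact (Nat.mul_le_mul_right _ h2).trans (Nat.div_mul_le_self _ _)
  have he2 : ∀ i ∈ T, m i ≤ 2 * μ * 2 ^ e i := by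
    intro i _
    have h2 := Nat.lt_pow_succ_log_self (b := 2) (by norm_num) (m i / μ)
    rw [← he, Nat.succ_eq_add_one] at h2
    have h3 : m i / μ < 2 ^ (e i + 1) := h2
    rw [Nat.div_lt_iff_lt_mul hμ, pow_succ] at h3
    have h4 : 2 ^ e i * 2 * μ = 2 * μ * 2 ^ e i := by ring
    omega
  obtain ⟨w, hw⟩ : ∃ w, w = ∑ i ∈ T, 2 ^ e i := ⟨_, rfl⟩
  have hw1 : w < E * J := by
    by_contra hcon
    push Not at hcon
    apply hne
    have h1 := blocks (e := e) (s := q) (g := q) (m₀ := 3 * q) (z := B) (B := B) (d := d)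
      (κ := κ) (I := I) h01 (by omega) (by omega) (by omega) (by rw [mul_comm]) hκ2 J T A
      (by rw [← hE, ← hw]; exact hcon) hdeg (by
        intro c
        refine le_trans ?_ hI1
        apply card_col_le (k := 1) (y := 0) h01 hdeg
        intro a ha _
        have := le_of_deg (hdeg a ha) 1
        omega) (by rw [← hE]; exact hJ1)
    apply h1.mono le_rfl le_rfl
    intro i hi
    refine le_trans ?_ (he1 i hi)
    rw [← hBμ, mul_add]
    exact Nat.add_le_add_left (Nat.le_mul_of_pos_left _ (by positivity)) _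
  have hX : ∑ i ∈ T, m i ≤ 2 * μ * w := by
    rw [hw, Finset.mul_sum]
    exact Finset.sum_le_sum he2
  have hnc : nc A 0 ≤ d + 1 := by
    have h1 : nc A 0 ≤ (Finset.range (d + 1)).card := by
      apply Finset.card_le_card
      intro c hc
      rw [Finset.mem_image] at hc
      obtain ⟨a, ha, rfl⟩ := hc
      rw [Finset.mem_range]
      have := le_of_deg (hdeg a ha) 0
      omega
    rwa [Finset.card_range] at h1
  have hWt : Wt B A 0 ≤ A.card + B * (d + 1) := Nat.add_le_add_left (Nat.mul_le_mul_left _ hnc) _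
  have hwκ : w * κ ≤ A.card + B * (d + 1) + E * κ := by
    have h1 : w * κ ≤ (E * J) * κ := Nat.mul_le_mul_right _ hw1.le
    have h2 : (E * J) * κ = J * (E * κ) := by ring
    omega
  have ha1 := arith1 hq hμ37
  rw [← hB, ← hκ] at ha1
  -- conclusion
  obtain ⟨X, hX'⟩ : ∃ X, X = ∑ i ∈ T, m i := ⟨_, rfl⟩
  rw [← hX'] at hX ⊢
  obtain ⟨N, hN⟩ : ∃ N, N = A.card := ⟨_, rfl⟩
  rw [← hN] at hwκ ⊢
  have r1 : (X : ℝ) ≤ 2 * μ * w := by exact_mod_cast hX
  have r2 : (w : ℝ) * κ ≤ N + B * (d + 1) + E * κ := by exact_mod_cast hwκ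
  have r3 : 2 * (μ : ℝ) ^ 2 ≤ 37 * κ := by exact_mod_cast ha1
  have r4 : (E : ℝ) * q ≤ d := by
    have : E * q ≤ d := by rw [hE]; exact hI2
    exact_mod_cast this
  have r5 : (κ : ℝ) = (q - 2) * B := by
    have : q * B = κ + 2 * B := hκ2
    have : (q : ℝ) * B = κ + 2 * B := by exact_mod_cast this
    linarith
  have r6 : (6 : ℝ) ≤ q := by exact_mod_cast hq6
  have r7 : (μ : ℝ) ≤ 6 * q + 5 := by exact_mod_cast hμq
  have r8 : (38 : ℝ) ≤ μ := by exact_mod_cast hμ37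
  have r9 : (μ : ℝ) ≤ d := by exact_mod_cast hμd
  have r10 : (0 : ℝ) < B := by
    have : 0 < B := by omega
    exact_mod_cast this
  have hκpos : (0 : ℝ) < κ := by rw [r5]; exact mul_pos (by linarith) r10
  have r11 : (w : ℝ) ≤ N / κ + (d + 1) / (q - 2) + E := by
    have h1 : (N : ℝ) / κ + (d + 1) / (q - 2) + E = (N + B * (d + 1) + E * κ) / κ := by
      rw [r5]
      have h2 : (q : ℝ) - 2 ≠ 0 := by linarith
      have h3 : (B : ℝ) ≠ 0 := r10.ne'
      field_simp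
    rw [h1, le_div_iff₀ hκpos]
    exact r2
  have r12 : 2 * (μ : ℝ) * ((d + 1) / (q - 2)) ≤ 21.1 * d := by
    rw [mul_div_assoc', div_le_iff₀ (by linarith)]
    have h1 : 2 * (μ : ℝ) ≤ 20.5 * (q - 2) := by linarith
    have h2 : (d : ℝ) + 1 ≤ 39 / 38 * d := by linarith
    calc 2 * (μ : ℝ) * (d + 1) ≤ (20.5 * (q - 2)) * (39 / 38 * d) :=
          mul_le_mul h1 h2 (by linarith) (by linarith)
      _ ≤ 21.1 * d * (q - 2) := by nlinarith
  have r13 : 2 * (μ : ℝ) * E ≤ 13.7 * d := by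
    have h1 : 2 * (μ : ℝ) ≤ 13.7 * q := by linarith
    calc 2 * (μ : ℝ) * E ≤ 13.7 * q * E := mul_le_mul_of_nonneg_right h1 (Nat.cast_nonneg E)
      _ = 13.7 * (E * q) := by ring
      _ ≤ 13.7 * d := by linarith
  have r14 : (μ : ℝ) * (2 * μ * (N / κ)) ≤ 37 * N := by
    have h1 : (μ : ℝ) * (2 * μ * (N / κ)) = 2 * (μ : ℝ) ^ 2 * N / κ := by ring
    rw [h1, div_le_iff₀ hκpos]
    have h2 : (0 : ℝ) ≤ N := Nat.cast_nonneg N
    nlinarith
  have r15 : (X : ℝ) ≤ 2 * μ * (N / κ) + 21.1 * d + 13.7 * d := by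
    calc (X : ℝ) ≤ 2 * μ * w := r1
      _ ≤ 2 * μ * (N / κ + (d + 1) / (q - 2) + E) :=
          mul_le_mul_of_nonneg_left r11 (by positivity)
      _ = 2 * μ * (N / κ) + 2 * μ * ((d + 1) / (q - 2)) + 2 * μ * E := by ring
      _ ≤ _ := by linarith
  have r16 : (μ : ℝ) * X ≤ 37 * N + 35 * d * μ := by
    calc (μ : ℝ) * X ≤ μ * (2 * μ * (N / κ) + 21.1 * d + 13.7 * d) :=
          mul_le_mul_of_nonneg_left r15 (by positivity)
      _ = μ * (2 * μ * (N / κ)) + 34.8 * (d * μ) := by ring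
      _ ≤ 37 * N + 35 * d * μ := by nlinarith
  exact_mod_cast r16

end Pool.Agent.Y910.N
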