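import Pool.Agent.Y910.N.N14

/-!
The sum of the multiplicities.
-/

open MvPolynomial Finset

namespace Pool.Agent.Y910.N

/-- the strip bound -/
lemma heavy_card_sqrt' (A : Finset (Fin 3 →₀ ℕ)) (j : Fin 3) :
    (heavy A j (Nat.sqrt A.card)).card ≤ Nat.sqrt A.card := by
  have h5 := heavy_card (A := A) (j := j) (D := Nat.sqrt A.card)
  have h6 := Nat.lt_succ_sqrt A.card
  rw [Nat.succ_eq_add_one] at h6
  by_contra h7
  push Not at h7
  have h8 : (Nat.sqrt A.card + 1) * (Nat.sqrt A.card + 1)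
      ≤ (heavy A j (Nat.sqrt A.card)).card * (Nat.sqrt A.card + 1) :=
    Nat.mul_le_mul_right _ h7
  omega

/-- from the weighted counting inequality to the sum of the multiplicities -/
theorem sum_le_of_weight {n d N : ℕ} {m : Fin n → ℕ} (hn : 0 < n) (hN : 0 < N)
    (h : ∀ μ : ℕ, 1 ≤ μ → μ * ∑ i ∈ univ.filter (fun i => μ ≤ m i), m i ≤ 37 * N + 35 * d * μ) :
    (∑ i, (m i : ℝ)) ≤ 13 * Real.sqrt (n * N) + 35 * d := by
  have hn0 : (0 : ℝ) < n := by exact_mod_cast hn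
  have hN0 : (0 : ℝ) < N := by exact_mod_cast hN
  obtain ⟨ρ, hρ⟩ : ∃ ρ, ρ = Real.sqrt (37 * N / n) := ⟨_, rfl⟩
  have hρ0 : 0 < ρ := by rw [hρ]; positivity
  have hρ2 : n * ρ ^ 2 = 37 * N := by
    rw [hρ, Real.sq_sqrt (by positivity)]
    field_simp
  obtain ⟨μ, hμ⟩ : ∃ μ, μ = ⌈ρ⌉₊ := ⟨_, rfl⟩
  have hμ1 : 1 ≤ μ := by
    rw [hμ]
    exact Nat.ceil_pos.2 hρ0
  have hμ2 : ρ ≤ μ := by rw [hμ]; exact Nat.le_ceil ρ
  have hμ3 : (μ : ℝ) < ρ + 1 := by rw [hμ]; exact Nat.ceil_lt_add_one hρ0.le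
  have hμ0 : (0 : ℝ) < μ := by exact_mod_cast hμ1
  have h1 := h μ hμ1
  have h2 : (μ : ℝ) * ∑ i ∈ univ.filter (fun i => μ ≤ m i), (m i : ℝ) ≤ 37 * N + 35 * d * μ := by
    exact_mod_cast h1
  obtain ⟨X, hX⟩ : ∃ X : ℝ, X = ∑ i ∈ univ.filter (fun i => μ ≤ m i), (m i : ℝ) := ⟨_, rfl⟩
  rw [← hX] at h2
  have h3 : (∑ i, (m i : ℝ)) ≤ n * ρ + X := by
    rw [← Finset.sum_filter_add_sum_filter_not univ (fun i => μ ≤ m i), ← hX, add_comm]
    apply add_le_add_left
    calc ∑ i ∈ univ.filter (fun i => ¬ μ ≤ m i), (m i : ℝ)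
        ≤ ∑ _i ∈ univ.filter (fun i : Fin n => ¬ μ ≤ m i), ρ := by
          apply Finset.sum_le_sum
          intro i hi
          rw [Finset.mem_filter] at hi
          have h4 : m i + 1 ≤ μ := by omega
          have h5 : (m i : ℝ) + 1 ≤ μ := by exact_mod_cast h4
          linarith
      _ = ((univ.filter (fun i : Fin n => ¬ μ ≤ m i)).card : ℝ) * ρ := by
          rw [Finset.sum_const, nsmul_eq_mul]
      _ ≤ n * ρ := by
          apply mul_le_mul_of_nonneg_right _ hρ0.le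
          have : (univ.filter (fun i : Fin n => ¬ μ ≤ m i)).card ≤ n := by
            refine (Finset.card_filter_le _ _).trans ?_
            rw [Finset.card_univ, Fintype.card_fin]
          exact_mod_cast this
  have h4 : X ≤ n * ρ + 35 * d := by
    have h5 : X ≤ 37 * N / μ + 35 * d := by
      have h6 : X = μ * X / μ := by field_simp
      rw [h6]
      have h7 : 37 * (N : ℝ) / μ + 35 * d = (37 * N + 35 * d * μ) / μ := by field_simp
      rw [h7]
      exact div_le_div_of_nonneg_right h2 hμ0.le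
    have h6 : 37 * (N : ℝ) / μ ≤ n * ρ := by
      rw [div_le_iff₀ hμ0, ← hρ2]
      calc n * ρ ^ 2 = n * ρ * ρ := by ring
        _ ≤ n * ρ * μ := mul_le_mul_of_nonneg_left hμ2 (by positivity)
    linarith
  have h5 : 2 * (n * ρ) ≤ 13 * Real.sqrt (n * N) := by
    have h6 : n * ρ = Real.sqrt (37 * (n * N)) := by
      have h7 : 37 * ((n : ℝ) * N) = (n * ρ) ^ 2 := by
        have : (n * ρ) ^ 2 = n * (n * ρ ^ 2) := by ring
        rw [this, hρ2]
        ring
      rw [h7, Real.sqrt_sq (by positivity)]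
    rw [h6, Real.sqrt_mul (by norm_num)]
    have h7 : Real.sqrt 37 ≤ 6.5 := by
      rw [← Real.sqrt_sq (by norm_num : (0 : ℝ) ≤ 6.5)]
      exact Real.sqrt_le_sqrt (by norm_num)
    have h8 : 0 ≤ Real.sqrt ((n : ℝ) * N) := Real.sqrt_nonneg _
    nlinarith
  linarith

end Pool.Agent.Y910.N
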