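import Pool.Agent.Y910.N.N1

/-!
Degeneration to strips.
-/

open MvPolynomial Finset

namespace Pool.Agent.Y910.N

/-- the convex weight attached to a monotone function -/
def wt (σ : ℕ → ℕ) (u : ℕ) : ℕ := ∑ t ∈ range u, (σ t + σ (t + 1))

lemma wt_succ (σ : ℕ → ℕ) (u : ℕ) : wt σ (u + 1) = wt σ u + (σ u + σ (u + 1)) := by
  rw [wt, Finset.sum_range_succ, ← wt]

lemma wt_lower {σ : ℕ → ℕ} (hσ : Monotone σ) {a b : ℕ} (hab : a ≤ b) :
    (wt σ a : ℤ) + 2 * σ a * (b - a) + (σ b - σ a) ≤ wt σ b := by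
  induction b, hab using Nat.le_induction with
  | base => simp
  | succ b hab ih =>
    rw [wt_succ]
    push_cast
    have h1 : (σ a : ℤ) ≤ σ b := by exact_mod_cast hσ hab
    nlinarith

lemma wt_upper {σ : ℕ → ℕ} (hσ : Monotone σ) {a b : ℕ} (hab : a ≤ b) :
    (wt σ b : ℤ) + (σ b - σ a) ≤ wt σ a + 2 * σ b * (b - a) := by
  induction b, hab using Nat.le_induction with
  | base => simp
  | succ b hab ih =>
    rw [wt_succ]
    push_cast
    have h1 : (σ b : ℤ) ≤ σ (b + 1) := by exact_mod_cast hσ (Nat.le_succ b)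
    have h2 : (0 : ℤ) ≤ (b : ℤ) - a := by
      have : (a : ℤ) ≤ b := by exact_mod_cast hab
      linarith
    nlinarith [mul_le_mul_of_nonneg_right h1 h2]

/-- strict convexity between different strips -/
lemma wt_strict {σ : ℕ → ℕ} (hσ : Monotone σ) {a b : ℕ} (h : σ a ≠ σ b) :
    wt σ a + 2 * σ a * b + 1 ≤ wt σ b + 2 * σ a * a := by
  rcases le_total a b with hab | hab
  · have h1 := wt_lower hσ hab
    have h2 : (σ a : ℤ) + 1 ≤ σ b := by
      have := hσ hab
      omega
    have h3 : (wt σ a : ℤ) + 2 * σ a * b + 1 ≤ wt σ b + 2 * σ a * a := by nlinarith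
    exact_mod_cast h3
  · have h1 := wt_upper hσ hab
    have h2 : (σ b : ℤ) + 1 ≤ σ a := by
      have := hσ hab
      omega
    have h3 : (wt σ a : ℤ) + 2 * σ a * b + 1 ≤ wt σ b + 2 * σ a * a := by nlinarith
    exact_mod_cast h3

/-- strips of prescribed widths -/
lemma exists_strips (w : ℕ → ℕ) (n W : ℕ) (hW : W ≤ ∑ i ∈ range n, w i) :
    ∃ σ : ℕ → ℕ, Monotone σ ∧ (∀ u < W, σ u < n) ∧
      ∀ i < n, #{u ∈ range W | σ u = i} ≤ w i := by
  induction n generalizing W with
  | zero =>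
    refine ⟨fun _ => 0, monotone_const, ?_, ?_⟩
    · intro u hu
      simp at hW
      omega
    · intro i hi
      omega
  | succ n ih =>
    obtain ⟨S, hS⟩ : ∃ S, S = ∑ i ∈ range n, w i := ⟨_, rfl⟩
    rw [Finset.sum_range_succ, ← hS] at hW
    obtain ⟨σ, h1, h2, h3⟩ := ih (min W S) (by rw [← hS]; exact min_le_right _ _)
    refine ⟨fun u => if u < S then min (σ u) n else n, ?_, ?_, ?_⟩
    · intro u v huv
      simp only
      split_ifs with h4 h5
      · exact min_le_min_right _ (h1 huv)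
      · exact min_le_right _ _
      · omega
      · exact le_rfl
    · intro u hu
      simp only
      split_ifs
      · exact lt_of_le_of_lt (min_le_right _ _) (by omega)
      · omega
    · intro i hi
      by_cases hin : i < n
      · refine le_trans (Finset.card_le_card ?_) (h3 i hin)
        intro u hu
        simp only [Finset.mem_filter, Finset.mem_range] at hu ⊢
        obtain ⟨hu1, hu2⟩ := hu
        split_ifs at hu2 with h4
        · refine ⟨by omega, ?_⟩
          have := min_choice (σ u) n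
          omega
        · omega
      · have hi' : i = n := by omega
        subst hi'
        refine le_trans (Finset.card_le_card (t := Finset.Ico S W) ?_) ?_
        · intro u hu
          simp only [Finset.mem_filter, Finset.mem_range] at hu
          obtain ⟨hu1, hu2⟩ := hu
          rw [Finset.mem_Ico]
          split_ifs at hu2 with h4
          · exfalso
            have := h2 u (by omega)
            have := min_choice (σ u) i
            omega
          · omega
        · rw [Nat.card_Ico]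
          omega

/-- the configuration of points -/
noncomputable def pts (j : Fin 3) (T : ℂ) (i : ℕ) : Fin 3 → ℂ := Function.update 1 j (T ^ (2 * i))

lemma prod_pts (j : Fin 3) (T : ℂ) (i : ℕ) (b : Fin 3 →₀ ℕ) :
    ∏ k, pts j T i k ^ b k = T ^ (2 * i * b j) := by
  rw [Finset.prod_eq_single j]
  · simp [pts, pow_mul]
  · intro k _ hk
    simp [pts, Function.update_of_ne hk]
  · intro h
    exact absurd (Finset.mem_univ j) h

/-- **Degeneration to strips.** -/
theorem exists_good {n : ℕ} {A : Finset (Fin 3 →₀ ℕ)} (j : Fin 3) {σ : ℕ → ℕ} (hσ : Monotone σ)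
    (hσn : ∀ a ∈ A, σ (a j) < n) (m : ℕ → ℕ)
    (hkill : ∀ a ∈ A, ∃ L : List (Fin 3 × ℕ), L.length < m (σ (a j)) ∧ fac L a ≠ 0 ∧
      ∀ b ∈ A, b ≠ a → σ (b j) = σ (a j) → fac L b = 0) :
    ∃ v : ℕ → Fin 3 → ℂ, ∀ F : MvPolynomial (Fin 3) ℂ, F.support ⊆ A →
      (∀ i < n, MG (v i) F (m i)) → F = 0 := by
  classical
  choose! L hL1 hL2 hL3 using hkill
  obtain ⟨M, hM⟩ : ∃ M : ℕ, ∀ a ∈ A, ∀ b ∈ A, (fac (L a) b).natAbs ≤ M := by
    refine ⟨∑ a ∈ A, ∑ b ∈ A, (fac (L a) b).natAbs, ?_⟩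
    intro a ha b hb
    refine le_trans ?_ (Finset.single_le_sum (f := fun a => ∑ b ∈ A, (fac (L a) b).natAbs)
      (fun _ _ => Nat.zero_le _) ha)
    exact Finset.single_le_sum (f := fun b => (fac (L a) b).natAbs) (fun _ _ => Nat.zero_le _) hb
  obtain ⟨T, hT⟩ : ∃ T : ℝ, T = (M : ℝ) * A.card + 1 := ⟨_, rfl⟩
  have hT1 : 1 ≤ T := by
    rw [hT]
    have : (0 : ℝ) ≤ (M : ℝ) * A.card := by positivity
    linarith
  have hT0 : 0 < T := by linarith
  refine ⟨pts j (T : ℂ), ?_⟩
  intro F hF hmult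
  by_contra hF0
  have hne : F.support.Nonempty := by
    rw [Finset.nonempty_iff_ne_empty, Ne, MvPolynomial.support_eq_empty]
    exact hF0
  obtain ⟨a, ha, hmax⟩ := Finset.exists_max_image F.support
    (fun b => ‖coeff b F‖ * T ^ wt σ (b j)) hne
  have haA := hF ha
  have hrel := MG.rel (L a) (hmult _ (hσn a haA)) (hL1 a haA) hF
  obtain ⟨i, hi⟩ : ∃ i, i = σ (a j) := ⟨_, rfl⟩
  rw [← hi] at hrel
  simp only [prod_pts] at hrel
  rw [← Finset.add_sum_erase A _ haA] at hrel
  have hca : 0 < ‖coeff a F‖ := norm_pos_iff.2 (mem_support_iff.1 ha)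
  have hfa : (1 : ℝ) ≤ ‖(fac (L a) a : ℂ)‖ := by
    rw [Complex.norm_intCast]
    have := Int.one_le_abs (hL2 a haA)
    exact_mod_cast this
  have h1 : ‖coeff a F‖ * T ^ (2 * i * a j) ≤ ∑ b ∈ A.erase a,
      ‖(fac (L a) b : ℂ) * coeff b F * (T : ℂ) ^ (2 * i * b j)‖ := by
    have e1 : (fac (L a) a : ℂ) * coeff a F * (T : ℂ) ^ (2 * i * a j)
        = - ∑ b ∈ A.erase a, (fac (L a) b : ℂ) * coeff b F * (T : ℂ) ^ (2 * i * b j) :=
      eq_neg_of_add_eq_zero_left hrel
    calc ‖coeff a F‖ * T ^ (2 * i * a j)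
        ≤ ‖(fac (L a) a : ℂ)‖ * (‖coeff a F‖ * T ^ (2 * i * a j)) :=
          le_mul_of_one_le_left (by positivity) hfa
      _ = ‖(fac (L a) a : ℂ) * coeff a F * (T : ℂ) ^ (2 * i * a j)‖ := by
          rw [norm_mul, norm_mul, norm_pow, Complex.norm_real, Real.norm_of_nonneg hT0.le]
          ring
      _ = ‖∑ b ∈ A.erase a, (fac (L a) b : ℂ) * coeff b F * (T : ℂ) ^ (2 * i * b j)‖ := by
          rw [e1, norm_neg]
      _ ≤ _ := norm_sum_le _ _
  have h2 : ∀ b ∈ A.erase a, ‖(fac (L a) b : ℂ) * coeff b F * (T : ℂ) ^ (2 * i * b j)‖ * T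
      ≤ M * (‖coeff a F‖ * T ^ (2 * i * a j)) := by
    intro b hb
    rw [Finset.mem_erase] at hb
    by_cases hs : σ (b j) = i
    · rw [hL3 a haA b hb.2 hb.1 (by rw [hs, hi])]
      simp
      positivity
    by_cases hbs : b ∈ F.support
    swap
    · rw [notMem_support_iff.1 hbs]
      simp
      positivity
    have h3 := hmax b hbs
    have h4 := wt_strict hσ (a := a j) (b := b j) (by rw [← hi]; exact fun h => hs h.symm)
    rw [← hi] at h4
    have hfb : ‖(fac (L a) b : ℂ)‖ ≤ M := by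
      rw [Complex.norm_intCast]
      have := hM a haA b hb.2
      rw [← Int.cast_abs, ← Nat.cast_natAbs]
      exact_mod_cast this
    have h5 : ‖coeff b F‖ * T ^ (2 * i * b j) * T ≤ ‖coeff a F‖ * T ^ (2 * i * a j) := by
      have hp : 0 < T ^ wt σ (a j) := by positivity
      apply le_of_mul_le_mul_right _ hp
      calc ‖coeff b F‖ * T ^ (2 * i * b j) * T * T ^ wt σ (a j)
          = ‖coeff b F‖ * T ^ (wt σ (a j) + 2 * i * b j + 1) := by
            rw [pow_add, pow_add, pow_one]; ring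
        _ ≤ ‖coeff b F‖ * T ^ (wt σ (b j) + 2 * i * a j) := by
            apply mul_le_mul_of_nonneg_left _ (norm_nonneg _)
            exact pow_le_pow_right₀ hT1 h4
        _ = (‖coeff b F‖ * T ^ wt σ (b j)) * T ^ (2 * i * a j) := by rw [pow_add]; ring
        _ ≤ (‖coeff a F‖ * T ^ wt σ (a j)) * T ^ (2 * i * a j) :=
            mul_le_mul_of_nonneg_right h3 (by positivity)
        _ = _ := by ring
    rw [norm_mul, norm_mul, norm_pow, Complex.norm_real, Real.norm_of_nonneg hT0.le]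
    calc ‖(fac (L a) b : ℂ)‖ * ‖coeff b F‖ * T ^ (2 * i * b j) * T
        = ‖(fac (L a) b : ℂ)‖ * (‖coeff b F‖ * T ^ (2 * i * b j) * T) := by ring
      _ ≤ M * (‖coeff a F‖ * T ^ (2 * i * a j)) := by
          apply mul_le_mul hfb h5 (by positivity) (by positivity)
  have h6 : ‖coeff a F‖ * T ^ (2 * i * a j) * T ≤ A.card * (M * (‖coeff a F‖ * T ^ (2 * i * a j))) := by
    calc ‖coeff a F‖ * T ^ (2 * i * a j) * T ≤ (∑ b ∈ A.erase a,
          ‖(fac (L a) b : ℂ) * coeff b F * (T : ℂ) ^ (2 * i * b j)‖) * T :=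
          mul_le_mul_of_nonneg_right h1 hT0.le
      _ = ∑ b ∈ A.erase a, ‖(fac (L a) b : ℂ) * coeff b F * (T : ℂ) ^ (2 * i * b j)‖ * T := by
          rw [Finset.sum_mul]
      _ ≤ ∑ b ∈ A.erase a, M * (‖coeff a F‖ * T ^ (2 * i * a j)) := Finset.sum_le_sum h2
      _ = (A.erase a).card * (M * (‖coeff a F‖ * T ^ (2 * i * a j))) := by
          rw [Finset.sum_const, nsmul_eq_mul]
      _ ≤ _ := by
          apply mul_le_mul_of_nonneg_right _ (by positivity)
          exact_mod_cast Finset.card_le_card (Finset.erase_subset _ _)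
  have hpos : 0 < ‖coeff a F‖ * T ^ (2 * i * a j) := by positivity
  have h7 : (‖coeff a F‖ * T ^ (2 * i * a j)) * T ≤ (‖coeff a F‖ * T ^ (2 * i * a j)) * (T - 1) := by
    refine h6.trans (le_of_eq ?_)
    rw [hT]
    ring
  have h8 := le_of_mul_le_mul_left h7 hpos
  linarith

end Pool.Agent.Y910.N
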