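import Pool.Agent.Y910.N.N2

/-!
From one good configuration to very general points.
-/

open MvPolynomial Finset

namespace Pool.Agent.Y910.N

/-- the coefficients of the translates of the monomials as polynomials in the points -/
noncomputable def mc (n : ℕ) (i : Fin n) (s a : Fin 3 →₀ ℕ) : MvPolynomial (Fin n × Fin 3) ℂ :=
  coeff s (aeval (fun j : Fin 3 => (X j + C (X (i, j)) :
    MvPolynomial (Fin 3) (MvPolynomial (Fin n × Fin 3) ℂ)))
    (monomial a 1 : MvPolynomial (Fin 3) ℂ))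

lemma eval_mc {n : ℕ} (v : Fin n → Fin 3 → ℂ) (i : Fin n) (s a : Fin 3 →₀ ℕ) :
    eval (fun q : Fin n × Fin 3 => v q.1 q.2) (mc n i s a)
      = coeff s (tr (v i) (monomial a 1)) := by
  rw [mc, ← coeff_map]
  congr 1
  have h1 : (map (eval (fun q : Fin n × Fin 3 => v q.1 q.2))).comp
      (aeval (R := ℂ) (fun j : Fin 3 => (X j + C (X (i, j)) :
        MvPolynomial (Fin 3) (MvPolynomial (Fin n × Fin 3) ℂ))) :
        MvPolynomial (Fin 3) ℂ →+* MvPolynomial (Fin 3) (MvPolynomial (Fin n × Fin 3) ℂ))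
      = (tr (v i) : MvPolynomial (Fin 3) ℂ →+* MvPolynomial (Fin 3) ℂ) := by
    apply MvPolynomial.ringHom_ext
    · intro r
      simp [tr]
    · intro k
      simp [tr]
  exact congrArg (fun g : MvPolynomial (Fin 3) ℂ →+* MvPolynomial (Fin 3) ℂ => g (monomial a 1)) h1

/-- the multi-indices of degree less than `m` -/
noncomputable def rows (m : ℕ) : Finset (Fin 3 →₀ ℕ) :=
  (range m).biUnion (fun e => Finset.finsuppAntidiag univ e)

lemma mem_rows (m : ℕ) (s : Fin 3 →₀ ℕ) : s ∈ rows m ↔ (∑ j, s j) < m := by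
  rw [rows, Finset.mem_biUnion]
  constructor
  · rintro ⟨e, he, hs⟩
    rw [Finset.mem_range] at he
    rw [Finset.mem_finsuppAntidiag] at hs
    rw [hs.1]
    exact he
  · intro h
    refine ⟨_, Finset.mem_range.2 h, ?_⟩
    rw [Finset.mem_finsuppAntidiag]
    exact ⟨rfl, Finset.subset_univ _⟩

lemma coeff_tr_eq {v : Fin 3 → ℂ} {F : MvPolynomial (Fin 3) ℂ} {A : Finset (Fin 3 →₀ ℕ)}
    (hF : F.support ⊆ A) (s : Fin 3 →₀ ℕ) :
    coeff s (tr v F) = ∑ a ∈ A, coeff s (tr v (monomial a 1)) * coeff a F := by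
  conv_lhs => rw [F.as_sum]
  rw [map_sum, coeff_sum, Finset.sum_subset hF]
  · apply Finset.sum_congr rfl
    intro a _
    have : (monomial a (coeff a F) : MvPolynomial (Fin 3) ℂ) = C (coeff a F) * monomial a 1 := by
      rw [C_mul_monomial, mul_one]
    rw [this, map_mul]
    have h2 : tr v (C (coeff a F)) = C (coeff a F) := by simp [tr]
    rw [h2, coeff_C_mul, mul_comm]
  · intro a _ ha
    rw [notMem_support_iff.1 ha]
    simp

/-- the space of polynomials with support in `A` as a function space -/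
noncomputable def ofFun {A : Finset (Fin 3 →₀ ℕ)} (c : A → ℂ) : MvPolynomial (Fin 3) ℂ :=
  ∑ a : A, monomial (a : Fin 3 →₀ ℕ) (c a)

lemma coeff_ofFun {A : Finset (Fin 3 →₀ ℕ)} (c : A → ℂ) (b : A) :
    coeff (b : Fin 3 →₀ ℕ) (ofFun c) = c b := by
  classical
  rw [ofFun, coeff_sum, Finset.sum_eq_single b]
  · rw [coeff_monomial, if_pos rfl]
  · intro a _ hab
    rw [coeff_monomial, if_neg]
    intro h
    exact hab (Subtype.ext h)
  · intro h
    exact absurd (Finset.mem_univ b) h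

lemma support_ofFun {A : Finset (Fin 3 →₀ ℕ)} (c : A → ℂ) : (ofFun c).support ⊆ A := by
  classical
  intro b hb
  by_contra h
  rw [mem_support_iff] at hb
  apply hb
  rw [ofFun, coeff_sum]
  apply Finset.sum_eq_zero
  intro a _
  rw [coeff_monomial, if_neg]
  rintro rfl
  exact h a.2

/-- **Very general points.** If no nonzero polynomial with support in `A` has the given
multiplicities at one configuration, then the same is true outside a hypersurface. -/
theorem exists_generic {n : ℕ} (A : Finset (Fin 3 →₀ ℕ)) (m : Fin n → ℕ)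
    (h : ∃ v : Fin n → Fin 3 → ℂ, ∀ F : MvPolynomial (Fin 3) ℂ, F.support ⊆ A →
      (∀ i, MG (v i) F (m i)) → F = 0) :
    ∃ G : MvPolynomial (Fin n × Fin 3) ℂ, G ≠ 0 ∧ ∀ v : Fin n → Fin 3 → ℂ,
      eval (fun q : Fin n × Fin 3 => v q.1 q.2) G ≠ 0 →
      ∀ F : MvPolynomial (Fin 3) ℂ, F.support ⊆ A → (∀ i, MG (v i) F (m i)) → F = 0 := by
  classical
  obtain ⟨v₀, hv₀⟩ := h
  obtain ⟨R, hR⟩ : ∃ R : Finset (Fin n × (Fin 3 →₀ ℕ)), ∀ i s, (i, s) ∈ R ↔ (∑ j, s j) < m i :=
    ⟨univ.biUnion (fun i => (rows (m i)).image (fun s => (i, s))), by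
      intro i s
      simp [mem_rows]⟩
  obtain ⟨Mp, hMp⟩ : ∃ Mp : Matrix R A (MvPolynomial (Fin n × Fin 3) ℂ), ∀ r a,
      Mp r a = mc n r.1.1 r.1.2 (a : Fin 3 →₀ ℕ) := ⟨fun r a => mc n r.1.1 r.1.2 a, fun _ _ => rfl⟩
  obtain ⟨Mv, hMv⟩ : ∃ Mv : (Fin n → Fin 3 → ℂ) → Matrix R A ℂ, ∀ v,
      Mv v = Mp.map (eval (fun q : Fin n × Fin 3 => v q.1 q.2)) := ⟨fun v => Mp.map _, fun _ => rfl⟩
  have hMve : ∀ v r a, Mv v r a = coeff r.1.2 (tr (v r.1.1) (monomial (a : Fin 3 →₀ ℕ) 1)) := by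
    intro v r a
    rw [hMv, Matrix.map_apply, hMp, eval_mc]
  -- the conditions in terms of the matrix
  have hker : ∀ v (F : MvPolynomial (Fin 3) ℂ), F.support ⊆ A → ((∀ i, MG (v i) F (m i)) ↔
      (Mv v).mulVec (fun a => coeff (a : Fin 3 →₀ ℕ) F) = 0) := by
    intro v F hF
    constructor
    · intro hm
      funext r
      rw [Matrix.mulVec, dotProduct]
      simp only [hMve, Pi.zero_apply]
      have h1 := hm r.1.1 r.1.2 ((hR _ _).1 r.2)
      rw [coeff_tr_eq hF] at h1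
      rw [← h1, ← Finset.sum_coe_sort A]
    · intro hm i s hs
      have h1 := congrFun hm ⟨(i, s), (hR i s).2 hs⟩
      rw [Matrix.mulVec, dotProduct] at h1
      simp only [hMve, Pi.zero_apply] at h1
      rw [coeff_tr_eq hF, ← Finset.sum_coe_sort A]
      exact h1
  -- a left inverse at `v₀`
  have hinj : Function.Injective (Matrix.mulVecLin (Mv v₀)) := by
    rw [← LinearMap.ker_eq_bot, LinearMap.ker_eq_bot']
    intro c hc
    have h1 := hv₀ (ofFun c) (support_ofFun c) ((hker v₀ _ (support_ofFun c)).2 (by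
      have : (fun a : A => coeff (a : Fin 3 →₀ ℕ) (ofFun c)) = c := by
        funext a
        exact coeff_ofFun c a
      rw [this]
      exact hc))
    funext a
    rw [← coeff_ofFun c a, h1, coeff_zero, Pi.zero_apply]
  obtain ⟨g, hg⟩ := LinearMap.exists_leftInverse_of_injective _ (LinearMap.ker_eq_bot.2 hinj)
  obtain ⟨L, hL⟩ : ∃ L : Matrix A R ℂ, L = LinearMap.toMatrix' g := ⟨_, rfl⟩
  have hLM : L * Mv v₀ = 1 := by
    have h1 := congrArg LinearMap.toMatrix' hg
    rw [LinearMap.toMatrix'_comp, ← Matrix.toLin'_apply', LinearMap.toMatrix'_toLin',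
      LinearMap.toMatrix'_id, ← hL] at h1
    exact h1
  have hev : ∀ v, eval (fun q : Fin n × Fin 3 => v q.1 q.2)
      ((L.map (C : ℂ →+* MvPolynomial (Fin n × Fin 3) ℂ)) * Mp).det = (L * Mv v).det := by
    intro v
    rw [RingHom.map_det, RingHom.mapMatrix_apply, Matrix.map_mul, hMv]
    congr 2
    ext a r
    simp
  refine ⟨((L.map (C : ℂ →+* MvPolynomial (Fin n × Fin 3) ℂ)) * Mp).det, ?_, ?_⟩
  · intro h0
    have h1 := hev v₀
    rw [h0, map_zero, hLM, Matrix.det_one] at h1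
    exact zero_ne_one h1
  · intro v hv F hF hm
    rw [hev] at hv
    have h1 := (hker v F hF).1 hm
    have h2 : (L * Mv v).mulVec (fun a => coeff (a : Fin 3 →₀ ℕ) F) = 0 := by
      rw [← Matrix.mulVec_mulVec, h1, Matrix.mulVec_zero]
    have h3 := Matrix.eq_zero_of_mulVec_eq_zero hv h2
    ext b
    rw [coeff_zero]
    by_cases hb : b ∈ F.support
    · exact congrFun h3 ⟨b, hF hb⟩
    · exact notMem_support_iff.1 hb

end Pool.Agent.Y910.N
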