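import Pool.Agent.Y910.N.N3

/-!
Curves with few monomials through very general points.
-/

open MvPolynomial Finset

namespace Pool.Agent.Y910.N

lemma fac_append (L L' : List (Fin 3 × ℕ)) (b : Fin 3 →₀ ℕ) :
    fac (L ++ L') b = fac L b * fac L' b := by
  rw [fac, List.map_append, List.prod_append]
  rfl

lemma fac_eq_zero {L : List (Fin 3 × ℕ)} {b : Fin 3 →₀ ℕ} {t : Fin 3 × ℕ} (ht : t ∈ L)
    (h : b t.1 = t.2) : fac L b = 0 := by
  rw [fac]
  apply List.prod_eq_zero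
  rw [List.mem_map]
  exact ⟨t, ht, by rw [h, sub_self]⟩

lemma fac_ne_zero {L : List (Fin 3 × ℕ)} {b : Fin 3 →₀ ℕ} (h : ∀ t ∈ L, b t.1 ≠ t.2) :
    fac L b ≠ 0 := by
  rw [fac]
  intro h0
  rw [List.prod_eq_zero_iff, List.mem_map] at h0
  obtain ⟨t, ht, h1⟩ := h0
  apply h t ht
  have : (b t.1 : ℤ) = t.2 := by linarith
  exact_mod_cast this

/-- list of factors `(j, c)`, `c ∈ S` -/
noncomputable def fl (j : Fin 3) (S : Finset ℕ) : List (Fin 3 × ℕ) := S.toList.map (fun c => (j, c))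

lemma length_fl (j : Fin 3) (S : Finset ℕ) : (fl j S).length = S.card := by
  rw [fl, List.length_map, Finset.length_toList]

lemma mem_fl {j : Fin 3} {S : Finset ℕ} {t : Fin 3 × ℕ} : t ∈ fl j S ↔ t.1 = j ∧ t.2 ∈ S := by
  rw [fl, List.mem_map]
  constructor
  · rintro ⟨c, hc, rfl⟩
    exact ⟨rfl, Finset.mem_toList.1 hc⟩
  · rintro ⟨h1, h2⟩
    exact ⟨t.2, Finset.mem_toList.2 h2, by rw [← h1]⟩

lemma fac_fl_eq_zero {j : Fin 3} {S : Finset ℕ} {b : Fin 3 →₀ ℕ} (h : b j ∈ S) :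
    fac (fl j S) b = 0 := fac_eq_zero (t := (j, b j)) (mem_fl.2 ⟨rfl, h⟩) rfl

lemma fac_fl_ne_zero {j : Fin 3} {S : Finset ℕ} {b : Fin 3 →₀ ℕ} (h : b j ∉ S) :
    fac (fl j S) b ≠ 0 := by
  apply fac_ne_zero
  intro t ht h1
  obtain ⟨h2, h3⟩ := mem_fl.1 ht
  rw [h2] at h1
  rw [← h1] at h3
  exact h h3

/-- exponents of the same degree that agree in two places are equal -/
lemma eq_of_two {j k : Fin 3} (hjk : j ≠ k) {a b : Fin 3 →₀ ℕ} (hd : ∑ i, a i = ∑ i, b i)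
    (hj : a j = b j) (hk : a k = b k) : a = b := by
  rw [Fin.sum_univ_three, Fin.sum_univ_three] at hd
  ext i
  fin_cases j <;> fin_cases k <;> fin_cases i <;> simp_all

/-- the exponents `c` such that more than `D` elements of `A` have `j`-th coordinate `c` -/
noncomputable def heavy (A : Finset (Fin 3 →₀ ℕ)) (j : Fin 3) (D : ℕ) : Finset ℕ :=
  (A.image (fun a => a j)).filter (fun c => D < #{b ∈ A | b j = c})

lemma mem_heavy {A : Finset (Fin 3 →₀ ℕ)} {j : Fin 3} {D c : ℕ} :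
    c ∈ heavy A j D ↔ D < #{b ∈ A | b j = c} := by
  rw [heavy, Finset.mem_filter, Finset.mem_image]
  constructor
  · exact fun h => h.2
  · intro h
    refine ⟨?_, h⟩
    obtain ⟨b, hb⟩ := Finset.card_pos.1 (by omega : 0 < #{b ∈ A | b j = c})
    rw [Finset.mem_filter] at hb
    exact ⟨b, hb.1, hb.2⟩

lemma heavy_card {A : Finset (Fin 3 →₀ ℕ)} {j : Fin 3} {D : ℕ} :
    (heavy A j D).card * (D + 1) ≤ A.card := by
  have h1 : ∑ c ∈ heavy A j D, #{b ∈ A | b j = c} ≤ A.card := by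
    rw [← Finset.card_biUnion]
    · apply Finset.card_le_card
      intro b hb
      rw [Finset.mem_biUnion] at hb
      obtain ⟨c, _, h⟩ := hb
      exact (Finset.mem_filter.1 h).1
    · intro c _ c' _ hcc
      rw [Function.onFun, Finset.disjoint_left]
      intro b hb hb'
      rw [Finset.mem_filter] at hb hb'
      exact hcc (hb.2.symm.trans hb'.2)
  refine le_trans ?_ h1
  rw [← smul_eq_mul]
  apply Finset.card_nsmul_le_sum
  intro c hc
  exact mem_heavy.1 hc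

section

variable {A : Finset (Fin 3 →₀ ℕ)} {j k : Fin 3} {D n W : ℕ} {m : ℕ → ℕ}

/-- a good configuration for the light columns -/
lemma good_light (hjk : j ≠ k) (hdeg : ∀ a ∈ A, ∀ b ∈ A, ∑ i, a i = ∑ i, b i)
    (hj : ∀ a ∈ A, a j < W)
    (hW : W ≤ ∑ i ∈ range n, (m i + 1 - ((heavy A j D).card + D))) :
    ∃ v : ℕ → Fin 3 → ℂ, ∀ F : MvPolynomial (Fin 3) ℂ,
      F.support ⊆ A.filter (fun a => a j ∉ heavy A j D) →
      (∀ i < n, MG (v i) F (m i - (heavy A j D).card)) → F = 0 := by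
  obtain ⟨σ, h1, h2, h3⟩ := exists_strips _ n W hW
  refine exists_good j h1 (fun a ha => h2 _ (hj a (Finset.mem_filter.1 ha).1)) _ ?_
  intro a ha
  rw [Finset.mem_filter] at ha
  obtain ⟨haA, hal⟩ := ha
  have hau := hj a haA
  obtain ⟨i, hi⟩ : ∃ i, i = σ (a j) := ⟨_, rfl⟩
  rw [← hi]
  have hin : i < n := by rw [hi]; exact h2 _ hau
  obtain ⟨S, hS⟩ : ∃ S, S = (range W).filter (fun u => σ u = i) := ⟨_, rfl⟩
  have haS : a j ∈ S := by
    rw [hS, Finset.mem_filter, Finset.mem_range]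
    exact ⟨hau, hi.symm⟩
  have hScard : S.card ≤ m i + 1 - ((heavy A j D).card + D) := by rw [hS]; exact h3 i hin
  have hS1 : 1 ≤ S.card := Finset.card_pos.2 ⟨_, haS⟩
  obtain ⟨Q, hQ⟩ : ∃ Q, Q = A.filter (fun b => b j = a j) := ⟨_, rfl⟩
  have haQ : a ∈ Q := by rw [hQ, Finset.mem_filter]; exact ⟨haA, rfl⟩
  have hQcard : Q.card ≤ D := by
    rw [mem_heavy, ← hQ] at hal
    omega
  have hQ1 : 1 ≤ Q.card := Finset.card_pos.2 ⟨_, haQ⟩
  refine ⟨fl j (S.erase (a j)) ++ fl k ((Q.erase a).image (fun b => b k)), ?_, ?_, ?_⟩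
  · rw [List.length_append, length_fl, length_fl, Finset.card_erase_of_mem haS]
    have h4 : ((Q.erase a).image (fun b => b k)).card ≤ Q.card - 1 := by
      refine Finset.card_image_le.trans ?_
      rw [Finset.card_erase_of_mem haQ]
    omega
  · rw [fac_append]
    apply mul_ne_zero
    · apply fac_fl_ne_zero
      simp
    · apply fac_fl_ne_zero
      rw [Finset.mem_image]
      rintro ⟨b, hb, hbk⟩
      rw [Finset.mem_erase, hQ, Finset.mem_filter] at hb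
      exact hb.1 (eq_of_two hjk (hdeg b hb.2.1 a haA) hb.2.2 hbk)
  · intro b hb hba hσ
    rw [Finset.mem_filter] at hb
    rw [fac_append]
    by_cases hbj : b j = a j
    · apply mul_eq_zero_of_right
      apply fac_fl_eq_zero
      rw [Finset.mem_image]
      refine ⟨b, ?_, rfl⟩
      rw [Finset.mem_erase, hQ, Finset.mem_filter]
      exact ⟨hba, hb.1, hbj⟩
    · apply mul_eq_zero_of_left
      apply fac_fl_eq_zero
      rw [Finset.mem_erase, hS, Finset.mem_filter, Finset.mem_range]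
      exact ⟨hbj, hj b hb.1, hσ⟩

/-- a good configuration for the heavy columns -/
lemma good_heavy (hjk : j ≠ k) (hdeg : ∀ a ∈ A, ∀ b ∈ A, ∑ i, a i = ∑ i, b i)
    (hk : ∀ a ∈ A, a k < W)
    (hW : W ≤ ∑ i ∈ range n, (m i + 1 - ((heavy A j D).card + D))) :
    ∃ v : ℕ → Fin 3 → ℂ, ∀ F : MvPolynomial (Fin 3) ℂ,
      F.support ⊆ A.filter (fun a => a j ∈ heavy A j D) →
      (∀ i < n, MG (v i) F (m i)) → F = 0 := by
  obtain ⟨σ, h1, h2, h3⟩ := exists_strips _ n W hW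
  refine exists_good k h1 (fun a ha => h2 _ (hk a (Finset.mem_filter.1 ha).1)) _ ?_
  intro a ha
  rw [Finset.mem_filter] at ha
  obtain ⟨haA, hah⟩ := ha
  have hau := hk a haA
  obtain ⟨i, hi⟩ : ∃ i, i = σ (a k) := ⟨_, rfl⟩
  rw [← hi]
  have hin : i < n := by rw [hi]; exact h2 _ hau
  obtain ⟨S, hS⟩ : ∃ S, S = (range W).filter (fun u => σ u = i) := ⟨_, rfl⟩
  have haS : a k ∈ S := by
    rw [hS, Finset.mem_filter, Finset.mem_range]
    exact ⟨hau, hi.symm⟩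
  have hScard : S.card ≤ m i + 1 - ((heavy A j D).card + D) := by rw [hS]; exact h3 i hin
  have hS1 : 1 ≤ S.card := Finset.card_pos.2 ⟨_, haS⟩
  have hH1 : 1 ≤ (heavy A j D).card := Finset.card_pos.2 ⟨_, hah⟩
  refine ⟨fl j ((heavy A j D).erase (a j)) ++ fl k (S.erase (a k)), ?_, ?_, ?_⟩
  · rw [List.length_append, length_fl, length_fl, Finset.card_erase_of_mem haS,
      Finset.card_erase_of_mem hah]
    omega
  · rw [fac_append]
    apply mul_ne_zero
    · apply fac_fl_ne_zero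
      simp
    · apply fac_fl_ne_zero
      simp
  · intro b hb hba hσ
    rw [Finset.mem_filter] at hb
    rw [fac_append]
    by_cases hbj : b j = a j
    · apply mul_eq_zero_of_right
      apply fac_fl_eq_zero
      rw [Finset.mem_erase, hS, Finset.mem_filter, Finset.mem_range]
      exact ⟨fun h => hba (eq_of_two hjk (hdeg b hb.1 a haA) hbj h), hk b hb.1, hσ⟩
    · apply mul_eq_zero_of_left
      apply fac_fl_eq_zero
      rw [Finset.mem_erase]
      exact ⟨hbj, hb.2⟩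

end

/-- The theorem for a fixed support and fixed multiplicities. -/
theorem main_support {n : ℕ} (A : Finset (Fin 3 →₀ ℕ)) (m : Fin n → ℕ) {j k : Fin 3} (hjk : j ≠ k)
    (D W : ℕ) (hdeg : ∀ a ∈ A, ∀ b ∈ A, ∑ i, a i = ∑ i, b i) (hj : ∀ a ∈ A, a j < W)
    (hk : ∀ a ∈ A, a k < W) (hW : W ≤ ∑ i, (m i + 1 - ((heavy A j D).card + D))) :
    ∃ G : MvPolynomial (Fin n × Fin 3) ℂ, G ≠ 0 ∧ ∀ v : Fin n → Fin 3 → ℂ,
      eval (fun q : Fin n × Fin 3 => v q.1 q.2) G ≠ 0 →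
      ∀ F : MvPolynomial (Fin 3) ℂ, F.support = A → (∀ i, MG (v i) F (m i)) → F = 0 := by
  obtain ⟨m', hm'⟩ : ∃ m' : ℕ → ℕ, ∀ i : Fin n, m' i = m i :=
    ⟨fun i => if h : i < n then m ⟨i, h⟩ else 0, fun i => by simp⟩
  obtain ⟨K, hK⟩ : ∃ K, K = (heavy A j D).card := ⟨_, rfl⟩
  have hW' : W ≤ ∑ i ∈ range n, (m' i + 1 - ((heavy A j D).card + D)) := by
    rw [Finset.sum_range]
    simp only [hm']
    exact hW
  obtain ⟨v₁, hv₁⟩ := good_light hjk hdeg hj hW'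
  obtain ⟨v₂, hv₂⟩ := good_heavy hjk hdeg hk hW'
  rw [← hK] at hv₁
  obtain ⟨G₁, hG₁, hG₁'⟩ := exists_generic (A.filter (fun a => a j ∉ heavy A j D))
    (fun i => m i - K) ⟨fun i => v₁ i, fun F hF hm => hv₁ F hF (fun i hi => by
      have := hm ⟨i, hi⟩
      rw [← hm'] at this
      exact this)⟩
  obtain ⟨G₂, hG₂, hG₂'⟩ := exists_generic (A.filter (fun a => a j ∈ heavy A j D)) m
    ⟨fun i => v₂ i, fun F hF hm => hv₂ F hF (fun i hi => by
      have := hm ⟨i, hi⟩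
      rw [← hm'] at this
      exact this)⟩
  refine ⟨G₁ * G₂, mul_ne_zero hG₁ hG₂, ?_⟩
  intro v hv F hFA hm
  rw [map_mul] at hv
  have h1 := hG₁' v (left_ne_zero_of_mul hv) (ops (fl j (heavy A j D)) F) (by
    intro b hb
    rw [mem_support_iff, coeff_ops] at hb
    have hb1 := left_ne_zero_of_mul hb
    have hb2 := right_ne_zero_of_mul hb
    rw [Finset.mem_filter, ← hFA, mem_support_iff]
    refine ⟨hb2, fun h => hb1 ?_⟩
    rw [hFA] at h
    rw [fac_fl_eq_zero h, Int.cast_zero]) (by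
    intro i
    by_cases hi : K ≤ m i
    · apply MG.ops
      rw [length_fl, ← hK, Nat.sub_add_cancel hi]
      exact hm i
    · intro s hs
      have hs' : (∑ j, s j) < m i - K := hs
      omega)
  apply hG₂' v (right_ne_zero_of_mul hv) F _ hm
  intro b hb
  rw [Finset.mem_filter, ← hFA]
  refine ⟨hb, ?_⟩
  by_contra hcon
  rw [hFA] at hcon
  have h2 := congrArg (coeff b) h1
  rw [coeff_ops, coeff_zero] at h2
  rcases mul_eq_zero.1 h2 with h3 | h3
  · exact fac_fl_ne_zero hcon (by exact_mod_cast h3)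
  · exact (mem_support_iff.1 hb) h3

/-- **Few monomials.** Very general points. -/
theorem main (n : ℕ) : ∃ G : ℕ → MvPolynomial (Fin n × Fin 3) ℂ, (∀ l, G l ≠ 0) ∧
    ∀ v : Fin n → Fin 3 → ℂ, (∀ l, eval (fun q : Fin n × Fin 3 => v q.1 q.2) (G l) ≠ 0) →
      ∀ (d : ℕ) (m : Fin n → ℕ) (F : MvPolynomial (Fin 3) ℂ), F ≠ 0 → F.IsHomogeneous d →
        (∀ i, MG (v i) F (m i)) → ∀ (j k : Fin 3) (D : ℕ), j ≠ k →
        ∑ i, (m i + 1 - ((heavy F.support j D).card + D)) ≤ max (F.degreeOf j) (F.degreeOf k) := by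
  classical
  have hex : ∀ t : Finset (Fin 3 →₀ ℕ) × (Fin n → ℕ) × Fin 3 × Fin 3 × ℕ × ℕ,
      ∃ G : MvPolynomial (Fin n × Fin 3) ℂ, G ≠ 0 ∧ (t.2.2.1 ≠ t.2.2.2.1 →
        (∀ a ∈ t.1, ∀ b ∈ t.1, ∑ i, a i = ∑ i, b i) → (∀ a ∈ t.1, a t.2.2.1 < t.2.2.2.2.2) →
        (∀ a ∈ t.1, a t.2.2.2.1 < t.2.2.2.2.2) →
        t.2.2.2.2.2 ≤ ∑ i, (t.2.1 i + 1 - ((heavy t.1 t.2.2.1 t.2.2.2.2.1).card + t.2.2.2.2.1)) →
        ∀ v : Fin n → Fin 3 → ℂ, eval (fun q : Fin n × Fin 3 => v q.1 q.2) G ≠ 0 →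
        ∀ F : MvPolynomial (Fin 3) ℂ, F.support = t.1 → (∀ i, MG (v i) F (t.2.1 i)) → F = 0) := by
    rintro ⟨A, m, j, k, D, W⟩
    by_cases h : j ≠ k ∧ (∀ a ∈ A, ∀ b ∈ A, ∑ i, a i = ∑ i, b i) ∧ (∀ a ∈ A, a j < W) ∧
      (∀ a ∈ A, a k < W) ∧ W ≤ ∑ i, (m i + 1 - ((heavy A j D).card + D))
    · obtain ⟨h1, h2, h3, h4, h5⟩ := h
      obtain ⟨G, hG, hG'⟩ := main_support A m h1 D W h2 h3 h4 h5
      exact ⟨G, hG, fun _ _ _ _ _ => hG'⟩
    · exact ⟨1, one_ne_zero, fun h1 h2 h3 h4 h5 => absurd ⟨h1, h2, h3, h4, h5⟩ h⟩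
  choose g hg0 hg using hex
  obtain ⟨e, he⟩ := exists_surjective_nat
    (Finset (Fin 3 →₀ ℕ) × (Fin n → ℕ) × Fin 3 × Fin 3 × ℕ × ℕ)
  refine ⟨fun l => g (e l), fun l => hg0 _, ?_⟩
  intro v hv d m F hF hFd hm j k D hjk
  by_contra hcon
  push Not at hcon
  obtain ⟨l, hl⟩ := he (F.support, m, j, k, D, max (F.degreeOf j) (F.degreeOf k) + 1)
  have hvl := hv l
  simp only at hvl
  rw [hl] at hvl
  apply hF
  have hsum : ∀ a ∈ F.support, ∑ i, a i = d := by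
    intro a ha
    have h1 := hFd (mem_support_iff.1 ha)
    rw [← h1, Finsupp.weight_apply, Finsupp.sum_fintype _ _ (by simp)]
    simp
  refine hg (F.support, m, j, k, D, max (F.degreeOf j) (F.degreeOf k) + 1) hjk ?_ ?_ ?_ ?_ v hvl F
    rfl hm
  · intro a ha b hb
    rw [hsum a ha, hsum b hb]
  · intro a ha
    have := monomial_le_degreeOf j ha
    simp only
    omega
  · intro a ha
    have := monomial_le_degreeOf k ha
    simp only
    omega
  · exact hcon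

end Pool.Agent.Y910.N
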