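import Pool.Agent.Y910.N.N4

/-!
Independence of finite sets of exponents: gluing and killing.
-/

open MvPolynomial Finset

namespace Pool.Agent.Y910.N

/-- `A` is independent for `n` general points of multiplicity `m` -/
def Ind (A : Finset (Fin 3 →₀ ℕ)) (n m : ℕ) : Prop :=
  ∃ v : ℕ → Fin 3 → ℂ, ∀ F : MvPolynomial (Fin 3) ℂ, F.support ⊆ A →
    (∀ i < n, MG (v i) F m) → F = 0

lemma MG.mono {v : Fin 3 → ℂ} {F : MvPolynomial (Fin 3) ℂ} {m m' : ℕ} (h : MG v F m)
    (hm : m' ≤ m) : MG v F m' := Od.mono h hm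

lemma Ind.mono {A B : Finset (Fin 3 →₀ ℕ)} {n n' m m' : ℕ} (h : Ind A n m) (hA : B ⊆ A)
    (hn : n ≤ n') (hm : m ≤ m') : Ind B n' m' := by
  obtain ⟨v, hv⟩ := h
  exact ⟨v, fun F hF hF' => hv F (hF.trans hA) (fun i hi => (hF' i (by omega)).mono hm)⟩

lemma Ind.empty (m : ℕ) : Ind ∅ 0 m :=
  ⟨0, fun F hF _ => by
    rw [← MvPolynomial.support_eq_empty]
    exact Finset.subset_empty.1 hF⟩

/-- elimination of the coefficients in `A` -/
lemma elim {A : Finset (Fin 3 →₀ ℕ)} (B : Finset (Fin 3 →₀ ℕ)) (hAB : Disjoint A B) {n m : ℕ}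
    {v : ℕ → Fin 3 → ℂ}
    (h : ∀ F : MvPolynomial (Fin 3) ℂ, F.support ⊆ A → (∀ i < n, MG (v i) F m) → F = 0) :
    ∃ c : (Fin 3 →₀ ℕ) → (Fin 3 →₀ ℕ) → ℂ, ∀ F : MvPolynomial (Fin 3) ℂ, F.support ⊆ A ∪ B →
      (∀ i < n, MG (v i) F m) → ∀ a ∈ A, coeff a F = ∑ b ∈ B, c a b * coeff b F := by
  classical
  obtain ⟨R, hR⟩ : ∃ R : Finset (ℕ × (Fin 3 →₀ ℕ)), ∀ i s, (i, s) ∈ R ↔ i < n ∧ (∑ j, s j) < m :=
    ⟨range n ×ˢ rows m, by
      intro i s
      rw [Finset.mem_product, Finset.mem_range, mem_rows]⟩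
  obtain ⟨q, hq⟩ : ∃ q : (Fin 3 →₀ ℕ) → R → ℂ, ∀ b r, q b r = coeff r.1.2 (tr (v r.1.1)
    (monomial b 1)) := ⟨fun b r => coeff r.1.2 (tr (v r.1.1) (monomial b 1)), fun _ _ => rfl⟩
  obtain ⟨Φ, hΦ⟩ : ∃ Φ : (A → ℂ) →ₗ[ℂ] (R → ℂ), ∀ c, Φ c = ∑ a : A, c a • q a := by
    refine ⟨∑ a : A, (LinearMap.proj a : (A → ℂ) →ₗ[ℂ] ℂ).smulRight (q a), ?_⟩
    intro c
    rw [LinearMap.sum_apply]
    rfl
  have hcond : ∀ F : MvPolynomial (Fin 3) ℂ, F.support ⊆ A → ∀ r : R,
      Φ (fun a => coeff (a : Fin 3 →₀ ℕ) F) r = coeff r.1.2 (tr (v r.1.1) F) := by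
    intro F hF r
    rw [coeff_tr_eq hF, hΦ, Finset.sum_apply, ← Finset.sum_coe_sort A]
    apply Finset.sum_congr rfl
    intro a _
    rw [Pi.smul_apply, hq, smul_eq_mul, mul_comm]
  have hinj : LinearMap.ker Φ = ⊥ := by
    rw [LinearMap.ker_eq_bot']
    intro c hc
    have e1 : (fun a : A => coeff (a : Fin 3 →₀ ℕ) (ofFun c)) = c := by
      funext a
      exact coeff_ofFun c a
    have h1 := h (ofFun c) (support_ofFun c) (by
      intro i hi s hs
      have h2 := hcond (ofFun c) (support_ofFun c) ⟨(i, s), (hR i s).2 ⟨hi, hs⟩⟩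
      rw [e1, hc, Pi.zero_apply] at h2
      exact h2.symm)
    funext a
    rw [← coeff_ofFun c a, h1, coeff_zero, Pi.zero_apply]
  obtain ⟨g, hg⟩ := LinearMap.exists_leftInverse_of_injective Φ hinj
  refine ⟨fun a b => if ha : a ∈ A then - g (q b) ⟨a, ha⟩ else 0, ?_⟩
  intro F hF hF' a ha
  have h1 : Φ (fun a : A => coeff (a : Fin 3 →₀ ℕ) F) = - ∑ b ∈ B, coeff b F • q b := by
    rw [eq_neg_iff_add_eq_zero]
    funext r
    have h2 := hF' r.1.1 ((hR _ _).1 r.2).1 r.1.2 ((hR _ _).1 r.2).2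
    rw [coeff_tr_eq hF, Finset.sum_union hAB] at h2
    rw [Pi.add_apply, Pi.zero_apply, ← h2, hΦ, Finset.sum_apply, Finset.sum_apply,
      ← Finset.sum_coe_sort A]
    congr 1
    · apply Finset.sum_congr rfl
      intro a _
      rw [Pi.smul_apply, hq, smul_eq_mul, mul_comm]
    · apply Finset.sum_congr rfl
      intro a _
      rw [Pi.smul_apply, hq, smul_eq_mul, mul_comm]
  have h3 : coeff a F = g (Φ (fun a : A => coeff (a : Fin 3 →₀ ℕ) F)) ⟨a, ha⟩ := by
    have h4 := congrArg (fun f => f (fun a : A => coeff (a : Fin 3 →₀ ℕ) F) ⟨a, ha⟩) hg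
    simp only [LinearMap.comp_apply, LinearMap.id_apply] at h4
    exact h4.symm
  rw [h3, h1, map_neg, map_sum, Pi.neg_apply, Finset.sum_apply, ← Finset.sum_neg_distrib]
  apply Finset.sum_congr rfl
  intro b _
  simp only [dif_pos ha]
  rw [map_smul, Pi.smul_apply, smul_eq_mul]
  ring

/-- scaling of one variable -/
noncomputable def sc (j : Fin 3) (t : ℂ) : MvPolynomial (Fin 3) ℂ →ₐ[ℂ] MvPolynomial (Fin 3) ℂ :=
  aeval (fun k : Fin 3 => C (if k = j then t else 1) * X k)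

lemma coeff_sc (j : Fin 3) (t : ℂ) (F : MvPolynomial (Fin 3) ℂ) (b : Fin 3 →₀ ℕ) :
    coeff b (sc j t F) = t ^ b j * coeff b F := by
  classical
  induction F using MvPolynomial.induction_on' with
  | monomial u a =>
    have h1 : sc j t (monomial u a) = C (t ^ u j) * monomial u a := by
      rw [sc, aeval_monomial]
      have h2 : (u.prod fun i k => (C (if i = j then t else 1) * X i : MvPolynomial (Fin 3) ℂ) ^ k)
          = C (t ^ u j) * u.prod fun i k => (X i : MvPolynomial (Fin 3) ℂ) ^ k := by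
        rw [Finsupp.prod_fintype _ _ (by simp), Finsupp.prod_fintype _ _ (by simp)]
        simp only [mul_pow]
        rw [Finset.prod_mul_distrib]
        congr 1
        rw [Finset.prod_eq_single j]
        · simp
        · intro k _ hk
          simp [hk]
        · intro h
          exact absurd (Finset.mem_univ j) h
      rw [h2, algebraMap_eq]
      conv_rhs => rw [monomial_eq]
      ring
    rw [h1, coeff_C_mul, coeff_monomial]
    split_ifs with h
    · rw [h]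
    · simp
  | add p q hp hq => rw [map_add, coeff_add, coeff_add, hp, hq, mul_add]

lemma support_sc {A : Finset (Fin 3 →₀ ℕ)} (j : Fin 3) (t : ℂ) {F : MvPolynomial (Fin 3) ℂ}
    (hF : F.support ⊆ A) : (sc j t F).support ⊆ A := by
  intro b hb
  apply hF
  rw [mem_support_iff] at hb ⊢
  rw [coeff_sc] at hb
  exact right_ne_zero_of_mul hb

lemma MG.sc {j : Fin 3} {t : ℂ} {v : Fin 3 → ℂ} {F : MvPolynomial (Fin 3) ℂ} {m : ℕ}
    (h : MG (fun k => (if k = j then t else 1) * v k) F m) : MG v (N.sc j t F) m := by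
  have h1 : tr v (N.sc j t F) = N.sc j t (tr (fun k => (if k = j then t else 1) * v k) F) := by
    have h2 : (tr v).comp (N.sc j t)
        = (N.sc j t).comp (tr (fun k => (if k = j then t else 1) * v k)) := by
      apply MvPolynomial.algHom_ext
      intro k
      by_cases hk : k = j
      · simp [tr, N.sc, mul_add, hk]
      · simp [tr, N.sc, hk]
    exact congrArg (fun g : MvPolynomial (Fin 3) ℂ →ₐ[ℂ] MvPolynomial (Fin 3) ℂ => g F) h2
  intro s hs
  rw [h1, coeff_sc, h s hs, mul_zero]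

/-- **Gluing.** -/
theorem Ind.glue {A B : Finset (Fin 3 →₀ ℕ)} {n n' m c : ℕ} (j : Fin 3) (hA : Ind A n m)
    (hB : Ind B n' m) (hAc : ∀ a ∈ A, a j < c) (hBc : ∀ b ∈ B, c ≤ b j) :
    Ind (A ∪ B) (n + n') m := by
  classical
  obtain ⟨v, hv⟩ := hA
  obtain ⟨v', hv'⟩ := hB
  have hAB : Disjoint A B := by
    rw [Finset.disjoint_left]
    intro a ha hb
    have := hAc a ha
    have := hBc a hb
    omega
  obtain ⟨p, hp⟩ := elim B hAB hv
  obtain ⟨q, hq⟩ := elim A hAB.symm hv'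
  obtain ⟨P, hP⟩ : ∃ P : ℝ, P = ∑ a ∈ A, ∑ b ∈ B, ‖p a b‖ := ⟨_, rfl⟩
  obtain ⟨Q, hQ⟩ : ∃ Q : ℝ, Q = ∑ b ∈ B, ∑ a ∈ A, ‖q b a‖ := ⟨_, rfl⟩
  have hP0 : 0 ≤ P := by
    rw [hP]
    exact Finset.sum_nonneg (fun _ _ => Finset.sum_nonneg (fun _ _ => norm_nonneg _))
  have hQ0 : 0 ≤ Q := by
    rw [hQ]
    exact Finset.sum_nonneg (fun _ _ => Finset.sum_nonneg (fun _ _ => norm_nonneg _))
  obtain ⟨t, ht⟩ : ∃ t : ℝ, t = Q * P + 1 := ⟨_, rfl⟩
  have ht1 : 1 ≤ t := by
    rw [ht]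
    nlinarith [mul_nonneg hQ0 hP0]
  have ht0 : 0 < t := by linarith
  refine ⟨fun i => if i < n then v i else
    fun k => (if k = j then (t : ℂ) else 1) * v' (i - n) k, ?_⟩
  intro F hF hF'
  have h1 := hp F hF (by
    intro i hi
    have := hF' i (by omega)
    simp only [if_pos hi] at this
    exact this)
  have h2 := hq (sc j t F) (support_sc j t (by rw [Finset.union_comm]; exact hF)) (by
    intro i hi
    apply MG.sc
    have := hF' (n + i) (by omega)
    simp only [if_neg (by omega : ¬ n + i < n), Nat.add_sub_cancel_left] at this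
    exact this)
  simp only [coeff_sc] at h2
  obtain ⟨S, hS⟩ : ∃ S : ℝ, S = ∑ b ∈ B, ‖coeff b F‖ := ⟨_, rfl⟩
  obtain ⟨S', hS'⟩ : ∃ S' : ℝ, S' = ∑ a ∈ A, ‖coeff a F‖ := ⟨_, rfl⟩
  have hS0 : 0 ≤ S := by
    rw [hS]
    exact Finset.sum_nonneg (fun _ _ => norm_nonneg _)
  have hSle : ∀ b ∈ B, ‖coeff b F‖ ≤ S := by
    intro b hb
    rw [hS]
    exact Finset.single_le_sum (f := fun b => ‖coeff b F‖) (fun _ _ => norm_nonneg _) hb
  have hS'le : ∀ a ∈ A, ‖coeff a F‖ ≤ S' := by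
    intro b hb
    rw [hS']
    exact Finset.single_le_sum (f := fun b => ‖coeff b F‖) (fun _ _ => norm_nonneg _) hb
  have h3 : S' ≤ P * S := by
    rw [hS', hP, Finset.sum_mul]
    apply Finset.sum_le_sum
    intro a ha
    rw [h1 a ha, Finset.sum_mul]
    refine (norm_sum_le _ _).trans (Finset.sum_le_sum ?_)
    intro b hb
    rw [norm_mul]
    exact mul_le_mul_of_nonneg_left (hSle b hb) (norm_nonneg _)
  have h4 : t * S ≤ Q * S' := by
    rw [hS, hQ, Finset.mul_sum, Finset.sum_mul]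
    apply Finset.sum_le_sum
    intro b hb
    have h5 := h2 b hb
    have htb : 0 < t ^ b j := by positivity
    apply le_of_mul_le_mul_left _ htb
    calc t ^ b j * (t * ‖coeff b F‖) = t * ‖(t : ℂ) ^ b j * coeff b F‖ := by
          rw [norm_mul, norm_pow, Complex.norm_real, Real.norm_of_nonneg ht0.le]
          ring
      _ = t * ‖∑ a ∈ A, q b a * ((t : ℂ) ^ a j * coeff a F)‖ := by rw [h5]
      _ ≤ t * ∑ a ∈ A, ‖q b a * ((t : ℂ) ^ a j * coeff a F)‖ :=
          mul_le_mul_of_nonneg_left (norm_sum_le _ _) ht0.le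
      _ = ∑ a ∈ A, ‖q b a‖ * (t ^ (a j + 1) * ‖coeff a F‖) := by
          rw [Finset.mul_sum]
          apply Finset.sum_congr rfl
          intro a _
          rw [norm_mul, norm_mul, norm_pow, Complex.norm_real, Real.norm_of_nonneg ht0.le]
          ring
      _ ≤ ∑ a ∈ A, ‖q b a‖ * (t ^ b j * S') := by
          apply Finset.sum_le_sum
          intro a ha
          apply mul_le_mul_of_nonneg_left _ (norm_nonneg _)
          apply mul_le_mul _ (hS'le a ha) (norm_nonneg _) htb.le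
          apply pow_le_pow_right₀ ht1
          have := hAc a ha
          have := hBc b hb
          omega
      _ = t ^ b j * ((∑ a ∈ A, ‖q b a‖) * S') := by
          rw [Finset.sum_mul, Finset.mul_sum]
          apply Finset.sum_congr rfl
          intro a _
          ring
  have h6 : t * S ≤ Q * P * S := by
    refine h4.trans ?_
    rw [mul_assoc]
    exact mul_le_mul_of_nonneg_left h3 hQ0
  have hS00 : S = 0 := by
    rw [ht] at h6
    nlinarith
  have hS'0 : S' ≤ 0 := by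
    rw [hS00, mul_zero] at h3
    exact h3
  ext b
  rw [coeff_zero, ← norm_eq_zero]
  by_cases hb : b ∈ F.support
  · rcases Finset.mem_union.1 (hF hb) with h7 | h7
    · exact le_antisymm ((hS'le b h7).trans hS'0) (norm_nonneg _)
    · exact le_antisymm ((hSle b h7).trans hS00.le) (norm_nonneg _)
  · rw [notMem_support_iff.1 hb, norm_zero]

/-- **Killing.** -/
theorem Ind.kill {A B : Finset (Fin 3 →₀ ℕ)} {n m : ℕ} (L : List (Fin 3 × ℕ)) (hL : L.length ≤ m)
    (hA : Ind A n (m - L.length)) (hB : Ind B n m) (hLA : ∀ a ∈ A, fac L a ≠ 0)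
    (hLB : ∀ b ∈ B, fac L b = 0) : Ind (A ∪ B) n m := by
  classical
  obtain ⟨v₁, hv₁⟩ := hA
  obtain ⟨v₂, hv₂⟩ := hB
  obtain ⟨G₁, hG₁, hG₁'⟩ := exists_generic A (fun _ : Fin n => m - L.length)
    ⟨fun i => v₁ i, fun F hF hm => hv₁ F hF (fun i hi => hm ⟨i, hi⟩)⟩
  obtain ⟨G₂, hG₂, hG₂'⟩ := exists_generic B (fun _ : Fin n => m)
    ⟨fun i => v₂ i, fun F hF hm => hv₂ F hF (fun i hi => hm ⟨i, hi⟩)⟩
  obtain ⟨x, hx⟩ : ∃ x : Fin n × Fin 3 → ℂ, eval x (G₁ * G₂) ≠ 0 := by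
    by_contra hcon
    push Not at hcon
    apply mul_ne_zero hG₁ hG₂
    apply MvPolynomial.funext
    intro x
    rw [hcon x, map_zero]
  rw [map_mul] at hx
  refine ⟨fun i => if hi : i < n then fun k => x (⟨i, hi⟩, k) else 0, ?_⟩
  intro F hF hF'
  have hm : ∀ i : Fin n, MG (fun k => x (i, k)) F m := by
    intro i
    have := hF' i i.2
    simpa using this
  have h1 := hG₁' (fun i k => x (i, k)) (left_ne_zero_of_mul hx) (ops L F) (by
    intro b hb
    rw [mem_support_iff, coeff_ops] at hb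
    have hb1 := left_ne_zero_of_mul hb
    have hb2 := right_ne_zero_of_mul hb
    rcases Finset.mem_union.1 (hF (mem_support_iff.2 hb2)) with h | h
    · exact h
    · exact absurd (by rw [hLB b h, Int.cast_zero]) hb1) (by
    intro i
    apply MG.ops
    rw [Nat.sub_add_cancel hL]
    exact hm i)
  apply hG₂' (fun i k => x (i, k)) (right_ne_zero_of_mul hx) F _ hm
  intro b hb
  rcases Finset.mem_union.1 (hF hb) with h | h
  · exfalso
    have h2 := congrArg (coeff b) h1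
    rw [coeff_ops, coeff_zero] at h2
    rcases mul_eq_zero.1 h2 with h3 | h3
    · exact hLA b h (by exact_mod_cast h3)
    · exact (mem_support_iff.1 hb) h3
  · exact h

end Pool.Agent.Y910.N
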