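import Pool.Agent.Y910.N.N5

/-!
Sets of exponents that are independent for one point.
-/

open MvPolynomial Finset

namespace Pool.Agent.Y910.N

/-- independence at the point `(1,1,1)` -/
def Ind1 (A : Finset (Fin 3 →₀ ℕ)) (m : ℕ) : Prop :=
  ∀ F : MvPolynomial (Fin 3) ℂ, F.support ⊆ A → MG 1 F m → F = 0

lemma Ind1.ind {A : Finset (Fin 3 →₀ ℕ)} {m : ℕ} (h : Ind1 A m) : Ind A 1 m :=
  ⟨fun _ => 1, fun F hF hm => h F hF (hm 0 one_pos)⟩

/-- the exponents of `A` with `j`-th coordinate `c` -/
def col (A : Finset (Fin 3 →₀ ℕ)) (j : Fin 3) (c : ℕ) : Finset (Fin 3 →₀ ℕ) :=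
  A.filter (fun b => b j = c)

lemma mem_col {A : Finset (Fin 3 →₀ ℕ)} {j : Fin 3} {c : ℕ} {b : Fin 3 →₀ ℕ} :
    b ∈ col A j c ↔ b ∈ A ∧ b j = c := Finset.mem_filter

lemma ind1_col {A : Finset (Fin 3 →₀ ℕ)} {j : Fin 3} {c d m : ℕ}
    (hdeg : ∀ a ∈ A, ∑ i, a i = d) (hc : ∀ a ∈ A, a j = c) (hA : A.card ≤ m) : Ind1 A m := by
  classical
  intro F hF hm
  obtain ⟨k, hjk⟩ : ∃ k : Fin 3, j ≠ k := by
    fin_cases j
    · exact ⟨1, by decide⟩
    · exact ⟨0, by decide⟩
    · exact ⟨0, by decide⟩
  ext a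
  rw [coeff_zero]
  by_cases ha : a ∈ A
  swap
  · by_contra h
    exact ha (hF (mem_support_iff.2 h))
  have h1 := MG.rel (fl k ((A.erase a).image (fun b => b k))) hm (by
    rw [length_fl]
    have h2 : ((A.erase a).image (fun b => b k)).card ≤ (A.erase a).card := Finset.card_image_le
    rw [Finset.card_erase_of_mem ha] at h2
    have h3 : 1 ≤ A.card := Finset.card_pos.2 ⟨a, ha⟩
    omega) hF
  simp only [Pi.one_apply, one_pow, Finset.prod_const_one, mul_one] at h1
  rw [← Finset.add_sum_erase A _ ha, Finset.sum_eq_zero, add_zero] at h1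
  · rcases mul_eq_zero.1 h1 with h2 | h2
    · exfalso
      refine fac_fl_ne_zero (j := k) (S := (A.erase a).image (fun b => b k)) (b := a) ?_
        (by exact_mod_cast h2)
      rw [Finset.mem_image]
      rintro ⟨b, hb, hbk⟩
      rw [Finset.mem_erase] at hb
      exact hb.1 (eq_of_two hjk ((hdeg b hb.2).trans (hdeg a ha).symm)
        ((hc b hb.2).trans (hc a ha).symm) hbk)
    · exact h2
  · intro b hb
    have h3 : fac (fl k ((A.erase a).image (fun b => b k))) b = 0 :=
      fac_fl_eq_zero (Finset.mem_image_of_mem (fun b : Fin 3 →₀ ℕ => b k) hb)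
    rw [h3, Int.cast_zero, zero_mul]

/-- **Young's criterion**: `A` is independent at one point of multiplicity `m` if for all `s` at
most `m + 1 - s` columns of `A` have at least `s` elements. -/
theorem young {A : Finset (Fin 3 →₀ ℕ)} {j : Fin 3} {d m : ℕ} (hdeg : ∀ a ∈ A, ∑ i, a i = d)
    (h : ∀ s, 1 ≤ s → ((A.image (fun a => a j)).filter (fun c => s ≤ (col A j c).card)).Nonempty →
      ((A.image (fun a => a j)).filter (fun c => s ≤ (col A j c).card)).card + s ≤ m + 1) :
    Ind1 A m := by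
  classical
  obtain ⟨q, hq⟩ : ∃ q, q = (A.image (fun a => a j)).card := ⟨_, rfl⟩
  induction q generalizing A m with
  | zero =>
    have h1 : A = ∅ := by
      have := Finset.card_eq_zero.1 hq.symm
      exact Finset.image_eq_empty.1 this
    subst h1
    intro F hF _
    rw [← MvPolynomial.support_eq_empty]
    exact Finset.subset_empty.1 hF
  | succ q ih =>
    have hne : (A.image (fun a => a j)).Nonempty := Finset.card_pos.1 (by omega)
    obtain ⟨c₀, hc₀, hmax⟩ := Finset.exists_max_image _ (fun c => (col A j c).card) hne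
    obtain ⟨a₀, ha₀, ha₀c⟩ := Finset.mem_image.1 hc₀
    have hc1 : 1 ≤ (col A j c₀).card := Finset.card_pos.2 ⟨a₀, mem_col.2 ⟨ha₀, ha₀c⟩⟩
    have h1 := h (col A j c₀).card hc1 ⟨c₀, Finset.mem_filter.2 ⟨hc₀, le_rfl⟩⟩
    have h2 : 1 ≤ ((A.image (fun a => a j)).filter
        (fun c => (col A j c₀).card ≤ (col A j c).card)).card :=
      Finset.card_pos.2 ⟨c₀, Finset.mem_filter.2 ⟨hc₀, le_rfl⟩⟩
    have hm1 : (col A j c₀).card ≤ m := by omega
    obtain ⟨A', hA'⟩ : ∃ A', A' = A.filter (fun b => b j ≠ c₀) := ⟨_, rfl⟩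
    have himg : A'.image (fun a => a j) = (A.image (fun a => a j)).erase c₀ := by
      ext c
      rw [hA', Finset.mem_image, Finset.mem_erase, Finset.mem_image]
      constructor
      · rintro ⟨b, hb, rfl⟩
        rw [Finset.mem_filter] at hb
        exact ⟨hb.2, b, hb.1, rfl⟩
      · rintro ⟨h3, b, hb, rfl⟩
        exact ⟨b, Finset.mem_filter.2 ⟨hb, h3⟩, rfl⟩
    have hcol : ∀ c, c ≠ c₀ → col A' j c = col A j c := by
      intro c hc
      ext b
      rw [mem_col, mem_col, hA', Finset.mem_filter]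
      constructor
      · rintro ⟨⟨h3, _⟩, h4⟩
        exact ⟨h3, h4⟩
      · rintro ⟨h3, h4⟩
        exact ⟨⟨h3, by rw [h4]; exact hc⟩, h4⟩
    have hind : Ind1 A' (m - 1) := by
      apply ih
      · intro a ha
        rw [hA', Finset.mem_filter] at ha
        exact hdeg a ha.1
      · intro s hs hns
        have h3 : (A'.image (fun a => a j)).filter (fun c => s ≤ (col A' j c).card)
            = ((A.image (fun a => a j)).filter (fun c => s ≤ (col A j c).card)).erase c₀ := by
          rw [himg]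
          ext c
          simp only [Finset.mem_filter, Finset.mem_erase]
          constructor
          · rintro ⟨⟨h4, h5⟩, h6⟩
            rw [hcol c h4] at h6
            exact ⟨h4, h5, h6⟩
          · rintro ⟨h4, h5, h6⟩
            refine ⟨⟨h4, h5⟩, ?_⟩
            rw [hcol c h4]
            exact h6
        rw [h3] at hns ⊢
        obtain ⟨c, hc⟩ := hns
        rw [Finset.mem_erase, Finset.mem_filter] at hc
        have h4 : c₀ ∈ (A.image (fun a => a j)).filter (fun c => s ≤ (col A j c).card) :=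
          Finset.mem_filter.2 ⟨hc₀, hc.2.2.trans (hmax c hc.2.1)⟩
        have h5 := h s hs ⟨c₀, h4⟩
        rw [Finset.card_erase_of_mem h4]
        have h6 : 1 ≤ ((A.image (fun a => a j)).filter (fun c => s ≤ (col A j c).card)).card :=
          Finset.card_pos.2 ⟨c₀, h4⟩
        omega
      · rw [himg, Finset.card_erase_of_mem hc₀]
        omega
    intro F hF hmF
    have h3 : MG 1 (op j c₀ F) (m - 1) := by
      apply MG.op
      rw [Nat.sub_add_cancel (by omega)]
      exact hmF
    have h4 : op j c₀ F = 0 := by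
      apply hind _ _ h3
      intro b hb
      rw [mem_support_iff, coeff_op] at hb
      have hb1 := left_ne_zero_of_mul hb
      have hb2 := right_ne_zero_of_mul hb
      rw [hA', Finset.mem_filter]
      refine ⟨hF (mem_support_iff.2 hb2), fun h5 => hb1 ?_⟩
      rw [h5, sub_self]
    apply ind1_col (A := col A j c₀) (j := j) (c := c₀) (d := d) (m := m) _ _ hm1 F _ hmF
    · intro a ha
      exact hdeg a (mem_col.1 ha).1
    · intro a ha
      exact (mem_col.1 ha).2
    · intro b hb
      rw [mem_col]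
      refine ⟨hF hb, ?_⟩
      by_contra h5
      have h6 := congrArg (coeff b) h4
      rw [coeff_op, coeff_zero] at h6
      rcases mul_eq_zero.1 h6 with h7 | h7
      · apply h5
        have h8 : (b j : ℂ) = (c₀ : ℂ) := by linear_combination h7
        exact_mod_cast h8
      · exact (mem_support_iff.1 hb) h7

/-- a version with a rank function on the columns -/
theorem ind1_rank {A : Finset (Fin 3 →₀ ℕ)} {j : Fin 3} {d m : ℕ} (hdeg : ∀ a ∈ A, ∑ i, a i = d)
    (ρ : ℕ → ℕ) (hρ : ∀ a ∈ A, ∀ b ∈ A, ρ (a j) = ρ (b j) → a j = b j)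
    (h : ∀ a ∈ A, (col A j (a j)).card + ρ (a j) ≤ m) : Ind1 A m := by
  classical
  apply young (j := j) hdeg
  intro s hs hne
  obtain ⟨c, hc⟩ := hne
  rw [Finset.mem_filter, Finset.mem_image] at hc
  obtain ⟨⟨a, ha, hac⟩, hcs⟩ := hc
  have h0 := h a ha
  rw [hac] at h0
  have h1 : ((A.image (fun a => a j)).filter (fun c => s ≤ (col A j c).card)).card
      ≤ (Finset.range (m - s + 1)).card := by
    apply Finset.card_le_card_of_injOn ρ
    · intro c hc
      rw [Finset.mem_coe, Finset.mem_filter, Finset.mem_image] at hc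
      obtain ⟨⟨b, hb, hbc⟩, hcs'⟩ := hc
      have h2 := h b hb
      rw [hbc] at h2
      rw [Finset.mem_coe, Finset.mem_range]
      omega
    · intro c hc c' hc' hcc
      rw [Finset.mem_coe, Finset.mem_filter, Finset.mem_image] at hc hc'
      obtain ⟨⟨b, hb, hbc⟩, _⟩ := hc
      obtain ⟨⟨b', hb', hbc'⟩, _⟩ := hc'
      rw [← hbc, ← hbc'] at hcc ⊢
      exact hρ b hb b' hb' hcc
  rw [Finset.card_range] at h1
  omega

/-- the number of elements in a column is at most the number of their `k`-th coordinates -/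
lemma card_col_le {A : Finset (Fin 3 →₀ ℕ)} {j k : Fin 3} {d c y q : ℕ} (hjk : j ≠ k)
    (hdeg : ∀ a ∈ A, ∑ i, a i = d) (h : ∀ a ∈ A, a j = c → y ≤ a k ∧ a k < y + q) :
    (col A j c).card ≤ q := by
  have h1 : (col A j c).card ≤ (Finset.Ico y (y + q)).card := by
    apply Finset.card_le_card_of_injOn (fun b => b k)
    · intro b hb
      rw [Finset.mem_coe, mem_col] at hb
      rw [Finset.mem_coe, Finset.mem_Ico]
      exact h b hb.1 hb.2
    · intro b hb b' hb' hbb
      rw [Finset.mem_coe, mem_col] at hb hb'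
      exact eq_of_two hjk ((hdeg b hb.1).trans (hdeg b' hb'.1).symm) (hb.2.trans hb'.2.symm) hbb
  rw [Nat.card_Ico] at h1
  omega

/-- lower left triangle -/
lemma ind1_lower {A : Finset (Fin 3 →₀ ℕ)} {j k : Fin 3} {d m x y : ℕ} (hjk : j ≠ k)
    (hdeg : ∀ a ∈ A, ∑ i, a i = d)
    (h : ∀ a ∈ A, x ≤ a j ∧ y ≤ a k ∧ a j + a k < x + y + m) : Ind1 A m := by
  apply ind1_rank (j := j) hdeg (fun c => c - x)
  · intro a ha b hb hab
    have := (h a ha).1
    have := (h b hb).1
    omega
  · intro a ha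
    have h1 : (col A j (a j)).card ≤ m - (a j - x) := by
      apply card_col_le (y := y) hjk hdeg
      intro b hb hbj
      have := h a ha
      have := h b hb
      omega
    have := h a ha
    omega

/-- upper right triangle -/
lemma ind1_upper {A : Finset (Fin 3 →₀ ℕ)} {j k : Fin 3} {d m x y : ℕ} (hjk : j ≠ k)
    (hdeg : ∀ a ∈ A, ∑ i, a i = d)
    (h : ∀ a ∈ A, a j < x + m ∧ a k < y + m ∧ x + y + m ≤ a j + a k) : Ind1 A m := by
  apply ind1_rank (j := j) hdeg (fun c => x + m - 1 - c)
  · intro a ha b hb hab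
    have := (h a ha).1
    have := (h b hb).1
    omega
  · intro a ha
    have h1 : (col A j (a j)).card ≤ m - (x + m - a j) := by
      apply card_col_le (y := x + y + m - a j) hjk hdeg
      intro b hb hbj
      have := h a ha
      have := h b hb
      omega
    have := h a ha
    omega

/-- few columns with few elements -/
lemma ind1_box {A : Finset (Fin 3 →₀ ℕ)} {j : Fin 3} {d m p q : ℕ}
    (hdeg : ∀ a ∈ A, ∑ i, a i = d) (hp : (A.image (fun a => a j)).card ≤ p)
    (hq : ∀ a ∈ A, (col A j (a j)).card ≤ q) (hpq : p + q ≤ m + 1) : Ind1 A m := by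
  classical
  apply young (j := j) hdeg
  intro s hs hne
  obtain ⟨c, hc⟩ := hne
  rw [Finset.mem_filter, Finset.mem_image] at hc
  obtain ⟨⟨a, ha, hac⟩, hcs⟩ := hc
  have h0 := hq a ha
  rw [hac] at h0
  have h1 := Finset.card_filter_le (A.image (fun a => a j)) (fun c => s ≤ (col A j c).card)
  omega

end Pool.Agent.Y910.N
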