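import Pool.Agent.Y910.N.N6

/-!
Light boxes and the quadtree.
-/

open MvPolynomial Finset

namespace Pool.Agent.Y910.N

/-- strips of equal width -/
lemma Ind.strips {A : Finset (Fin 3 →₀ ℕ)} (j : Fin 3) (x w m K : ℕ)
    (h : ∀ i < K, Ind (A.filter (fun a => x + i * w ≤ a j ∧ a j < x + (i + 1) * w)) 1 m)
    (hA : ∀ a ∈ A, x ≤ a j ∧ a j < x + K * w) : Ind A K m := by
  classical
  have key : ∀ i ≤ K, Ind (A.filter (fun a => a j < x + i * w)) i m := by
    intro i hi
    induction i with
    | zero =>
      have h1 : A.filter (fun a => a j < x + 0 * w) = ∅ := by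
        rw [Finset.filter_eq_empty_iff]
        intro a ha
        have := (hA a ha).1
        omega
      rw [h1]
      exact Ind.empty m
    | succ i ih =>
      have h1 := Ind.glue (c := x + i * w) j (ih (by omega)) (h i (by omega)) (by
        intro a ha
        exact (Finset.mem_filter.1 ha).2) (by
        intro a ha
        exact (Finset.mem_filter.1 ha).2.1)
      apply h1.mono _ le_rfl le_rfl
      intro a ha
      rw [Finset.mem_filter] at ha
      rw [Finset.mem_union, Finset.mem_filter, Finset.mem_filter]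
      by_cases h2 : a j < x + i * w
      · exact Or.inl ⟨ha.1, h2⟩
      · exact Or.inr ⟨ha.1, by omega, ha.2⟩
  refine (key K le_rfl).mono ?_ le_rfl le_rfl
  intro a ha
  exact Finset.mem_filter.2 ⟨ha, (hA a ha).2⟩

lemma card_cols_mul_le {A : Finset (Fin 3 →₀ ℕ)} {j : Fin 3} {T : Finset ℕ} {s : ℕ}
    (h : ∀ c ∈ T, s ≤ (col A j c).card) : T.card * s ≤ A.card := by
  classical
  have h1 : ∑ c ∈ T, (col A j c).card ≤ A.card := by
    rw [← Finset.card_biUnion]
    · apply Finset.card_le_card
      intro b hb
      rw [Finset.mem_biUnion] at hb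
      obtain ⟨c, _, h⟩ := hb
      exact (mem_col.1 h).1
    · intro c _ c' _ hcc
      rw [Function.onFun, Finset.disjoint_left]
      intro b hb hb'
      exact hcc ((mem_col.1 hb).2.symm.trans (mem_col.1 hb').2)
  refine le_trans ?_ h1
  rw [← smul_eq_mul]
  exact Finset.card_nsmul_le_sum _ _ _ h

/-- **Light boxes**: `K` points suffice for a box of side `K * w` with few elements. -/
theorem ind_light {A : Finset (Fin 3 →₀ ℕ)} {j k : Fin 3} {d m x y K : ℕ} (hm : 1 ≤ m)
    (hjk : j ≠ k) (hdeg : ∀ a ∈ A, ∑ i, a i = d)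
    (hA : ∀ a ∈ A, (x ≤ a j ∧ a j < x + K * (m - 2 * (m / 6))) ∧
      (y ≤ a k ∧ a k < y + K * (m - 2 * (m / 6))))
    (hcard : 36 * A.card ≤ 5 * m ^ 2) : Ind A K m := by
  classical
  obtain ⟨w, hw⟩ : ∃ w, w = m - 2 * (m / 6) := ⟨_, rfl⟩
  rw [← hw] at hA
  obtain ⟨D, hD⟩ : ∃ D, D = 5 * m / 6 := ⟨_, rfl⟩
  obtain ⟨H, hH⟩ : ∃ H, H = heavy A j D := ⟨_, rfl⟩
  have hHmem : ∀ c, c ∈ H ↔ D < (col A j c).card := by
    intro c
    rw [hH, mem_heavy]
    rfl
  obtain ⟨h, hh⟩ : ∃ h, h = H.card := ⟨_, rfl⟩
  have h6 : 6 * h ≤ m := by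
    have h1 := card_cols_mul_le (A := A) (j := j) (T := H) (s := D + 1) (by
      intro c hc
      exact (hHmem c).1 hc)
    rw [← hh] at h1
    have h2 : 5 * m + 1 ≤ 6 * (D + 1) := by omega
    have h3 : 6 * h * (5 * m + 1) ≤ 5 * m ^ 2 := by
      calc 6 * h * (5 * m + 1) ≤ 6 * h * (6 * (D + 1)) := Nat.mul_le_mul_left _ h2
        _ = 36 * (h * (D + 1)) := by ring
        _ ≤ 36 * A.card := Nat.mul_le_mul_left _ h1
        _ ≤ _ := hcard
    by_contra hcon
    push Not at hcon
    nlinarith
  obtain ⟨Al, hAl⟩ : ∃ Al, Al = A.filter (fun a => a j ∉ H) := ⟨_, rfl⟩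
  obtain ⟨Ah, hAh⟩ : ∃ Ah, Ah = A.filter (fun a => a j ∈ H) := ⟨_, rfl⟩
  have hlen : (fl j H).length = h := by rw [length_fl, hh]
  -- the light part
  have hlight : Ind Al K (m - (fl j H).length) := by
    rw [hlen]
    apply Ind.strips j x w
    · intro i _
      apply Ind1.ind
      apply young (j := j) (d := d)
      · intro a ha
        rw [hAl, Finset.mem_filter, Finset.mem_filter] at ha
        exact hdeg a ha.1.1
      intro s hs hne
      obtain ⟨S, hS⟩ : ∃ S, S = Al.filter (fun a => x + i * w ≤ a j ∧ a j < x + (i + 1) * w) :=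
        ⟨_, rfl⟩
      rw [← hS] at hne ⊢
      obtain ⟨T, hT⟩ : ∃ T, T = (S.image (fun a => a j)).filter (fun c => s ≤ (col S j c).card) :=
        ⟨_, rfl⟩
      rw [← hT] at hne ⊢
      have hSA : S ⊆ A := by
        intro a ha
        rw [hS, Finset.mem_filter, hAl, Finset.mem_filter] at ha
        exact ha.1.1
      have hcol : ∀ c, (col S j c).card ≤ (col A j c).card := by
        intro c
        apply Finset.card_le_card
        intro b hb
        rw [mem_col] at hb ⊢
        exact ⟨hSA hb.1, hb.2⟩
      have hTc : ∀ c ∈ T, (x + i * w ≤ c ∧ c < x + (i + 1) * w) ∧ c ∉ H ∧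
          s ≤ (col A j c).card := by
        intro c hc
        rw [hT, Finset.mem_filter, Finset.mem_image] at hc
        obtain ⟨⟨a, ha, rfl⟩, hcs⟩ := hc
        refine ⟨?_, ?_, hcs.trans (hcol _)⟩
        · rw [hS, Finset.mem_filter] at ha
          exact ha.2
        · rw [hS, Finset.mem_filter, hAl, Finset.mem_filter] at ha
          exact ha.1.2
      obtain ⟨c, hc⟩ := hne
      have hc1 := hTc c hc
      have hsD : s ≤ D := by
        have := hc1.2.1
        rw [hHmem] at this
        omega
      by_cases h6s : 6 * s ≤ m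
      · have hTw : T.card ≤ w := by
          have h1 : T.card ≤ (Finset.Ico (x + i * w) (x + (i + 1) * w)).card := by
            apply Finset.card_le_card
            intro c hc
            rw [Finset.mem_Ico]
            exact (hTc c hc).1
          rw [Nat.card_Ico] at h1
          have h2 : x + (i + 1) * w - (x + i * w) = w := by
            rw [add_mul, one_mul]
            omega
          omega
        omega
      · have hdis : Disjoint T H := by
          rw [Finset.disjoint_left]
          intro c hc hcH
          exact (hTc c hc).2.1 hcH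
        have h1 := card_cols_mul_le (A := A) (j := j) (T := T ∪ H) (s := s) (by
          intro c hc
          rcases Finset.mem_union.1 hc with h2 | h2
          · exact (hTc c h2).2.2
          · have := (hHmem c).1 h2
            omega)
        rw [Finset.card_union_of_disjoint hdis, ← hh] at h1
        have h2 : 36 * ((T.card + h) * s) ≤ 5 * m ^ 2 := (Nat.mul_le_mul_left _ h1).trans hcard
        have h3 : 5 * m ^ 2 + 36 * (s * s) ≤ 36 * (s * m) := by
          have e1 : (0 : ℤ) ≤ (6 * s - m) * (5 * m - 6 * s) := by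
            apply mul_nonneg
            · have : (m : ℤ) ≤ 6 * s := by exact_mod_cast (by omega : m ≤ 6 * s)
              linarith
            · have : (6 * s : ℤ) ≤ 5 * m := by exact_mod_cast (by omega : 6 * s ≤ 5 * m)
              linarith
          have e2 : (5 * m ^ 2 + 36 * (s * s) : ℤ) ≤ 36 * (s * m) := by nlinarith
          exact_mod_cast e2
        have h4 : (T.card + h + s) * s ≤ m * s := by nlinarith
        have h5 := Nat.le_of_mul_le_mul_right h4 (by omega)
        omega
    · intro a ha
      rw [hAl, Finset.mem_filter] at ha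
      exact (hA a ha.1).1
  -- the heavy part
  have hheavy : Ind Ah K m := by
    apply Ind.strips k y w
    · intro i _
      apply Ind1.ind
      apply ind1_box (j := j) (d := d) (p := h) (q := w)
      · intro a ha
        rw [hAh, Finset.mem_filter, Finset.mem_filter] at ha
        exact hdeg a ha.1.1
      · rw [hh]
        apply Finset.card_le_card
        intro c hc
        rw [Finset.mem_image] at hc
        obtain ⟨a, ha, rfl⟩ := hc
        rw [hAh, Finset.mem_filter, Finset.mem_filter] at ha
        exact ha.1.2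
      · intro a _
        apply card_col_le (k := k) (d := d) (y := y + i * w) hjk
        · intro a ha
          rw [hAh, Finset.mem_filter, Finset.mem_filter] at ha
          exact hdeg a ha.1.1
        · intro b hb _
          rw [Finset.mem_filter] at hb
          have h1 := hb.2
          rw [add_mul, one_mul] at h1
          omega
      · omega
    · intro a ha
      rw [hAh, Finset.mem_filter] at ha
      exact (hA a ha.1).2
  have h1 := Ind.kill (fl j H) (by omega) hlight hheavy (by
    intro a ha
    rw [hAl, Finset.mem_filter] at ha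
    exact fac_fl_ne_zero ha.2) (by
    intro a ha
    rw [hAh, Finset.mem_filter] at ha
    exact fac_fl_eq_zero ha.2)
  apply h1.mono _ le_rfl le_rfl
  intro a ha
  rw [Finset.mem_union, hAl, hAh, Finset.mem_filter, Finset.mem_filter]
  by_cases h2 : a j ∈ H
  · exact Or.inr ⟨ha, h2⟩
  · exact Or.inl ⟨ha, h2⟩

lemma exists_third {j k : Fin 3} (hjk : j ≠ k) :
    ∃ l : Fin 3, ∀ a : Fin 3 →₀ ℕ, ∑ i, a i = a j + a k + a l := by
  fin_cases j <;> fin_cases k
  · exact absurd rfl hjk
  · exact ⟨2, fun a => by rw [Fin.sum_univ_three]; simp⟩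
  · exact ⟨1, fun a => by rw [Fin.sum_univ_three]; simp; ring⟩
  · exact ⟨2, fun a => by rw [Fin.sum_univ_three]; simp; ring⟩
  · exact absurd rfl hjk
  · exact ⟨0, fun a => by rw [Fin.sum_univ_three]; simp; ring⟩
  · exact ⟨1, fun a => by rw [Fin.sum_univ_three]; simp; ring⟩
  · exact ⟨0, fun a => by rw [Fin.sum_univ_three]; simp; ring⟩
  · exact absurd rfl hjk

/-- two points suffice for a box of side at most `m` -/
theorem ind_two {A : Finset (Fin 3 →₀ ℕ)} {j k : Fin 3} {d m x y w : ℕ} (hwm : w ≤ m)
    (hjk : j ≠ k) (hdeg : ∀ a ∈ A, ∑ i, a i = d)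
    (hA : ∀ a ∈ A, (x ≤ a j ∧ a j < x + w) ∧ (y ≤ a k ∧ a k < y + w)) : Ind A 2 m := by
  classical
  obtain ⟨l, hl⟩ := exists_third hjk
  have h1 : Ind (A.filter (fun a => x + y + m ≤ a j + a k)) 1 m := by
    apply Ind1.ind
    apply ind1_upper (x := x) (y := y) (d := d) hjk
    · intro a ha
      exact hdeg a (Finset.mem_filter.1 ha).1
    · intro a ha
      rw [Finset.mem_filter] at ha
      have := hA a ha.1
      omega
  have h2 : Ind (A.filter (fun a => a j + a k < x + y + m)) 1 m := by
    apply Ind1.ind
    apply ind1_lower (x := x) (y := y) (d := d) hjk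
    · intro a ha
      exact hdeg a (Finset.mem_filter.1 ha).1
    · intro a ha
      rw [Finset.mem_filter] at ha
      have := hA a ha.1
      omega
  have h3 := Ind.glue (c := d + 1 - (x + y + m)) l h1 h2 (by
    intro a ha
    rw [Finset.mem_filter] at ha
    have := hl a
    have := hdeg a ha.1
    omega) (by
    intro a ha
    rw [Finset.mem_filter] at ha
    have := hl a
    have := hdeg a ha.1
    omega)
  apply h3.mono _ le_rfl le_rfl
  intro a ha
  rw [Finset.mem_union, Finset.mem_filter, Finset.mem_filter]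
  rcases le_or_gt (x + y + m) (a j + a k) with h4 | h4
  · exact Or.inl ⟨ha, h4⟩
  · exact Or.inr ⟨ha, h4⟩

end Pool.Agent.Y910.N
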